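import Pool.Agent.Lib.MP_9f84a9_co.G.StmG

/-!
# MP_9f84a9_co, piece G1: areas and barycentric coordinates
-/

set_option autoImplicit false

namespace Pool.Agent.Lib.MP_9f84a9_co

open Finset Filter Topology

namespace G1

variable {N : ℕ} {a b w : Fin N}

theorem sum3 {M : Type*} [AddCommMonoid M] (hab : a ≠ b) (haw : a ≠ w) (hbw : b ≠ w)
    (f : Fin N → M) (hf : ∀ v, v ∉ ({a, b, w} : Finset (Fin N)) → f v = 0) :
    ∑ v, f v = f a + f b + f w := by
  rw [← Finset.sum_subset (Finset.subset_univ ({a, b, w} : Finset (Fin N)))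
    (fun v _ hv => hf v hv)]
  rw [Finset.sum_insert (by simp [hab, haw]), Finset.sum_insert (by simp [hbw]),
    Finset.sum_singleton, add_assoc]

theorem pos3 (hab : a ≠ b) (haw : a ≠ w) (hbw : b ≠ w) (p : Fin N → E) (x : Pt N)
    (hx : Sup x {a, b, w}) : pos p x = x a • p a + x b • p b + x w • p w := by
  unfold pos
  exact sum3 hab haw hbw _ (fun v hv => by rw [hx v hv, zero_smul])

theorem sm3 (hab : a ≠ b) (haw : a ≠ w) (hbw : b ≠ w) (x : Pt N) (h1 : ∑ v, x v = 1)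
    (hx : Sup x {a, b, w}) : x a + x b + x w = 1 := by
  rw [← sum3 hab haw hbw x (fun v hv => hx v hv)]
  exact h1

theorem ar3 (A B W : E) (s t u : ℝ) (h : s + t + u = 1) :
    ar A B (s • A + t • B + u • W) = u * ar A B W ∧
      ar B W (s • A + t • B + u • W) = s * ar A B W ∧
      ar W A (s • A + t • B + u • W) = t * ar A B W := by
  have hs : s = 1 - t - u := by linarith
  subst hs
  simp only [ar, PiLp.add_apply, PiLp.smul_apply, smul_eq_mul]
  refine ⟨by ring, by ring, by ring⟩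

theorem bc_vals (hab : a ≠ b) (haw : a ≠ w) (hbw : b ≠ w) (p : Fin N → E) (q : E) :
    bc a b w p q a = ar (p b) (p w) q / ar (p a) (p b) (p w) ∧
      bc a b w p q b = ar (p w) (p a) q / ar (p a) (p b) (p w) ∧
      bc a b w p q w = ar (p a) (p b) q / ar (p a) (p b) (p w) := by
  unfold bc vx
  simp only [Pi.add_apply, Pi.smul_apply, smul_eq_mul, Pi.single_eq_same,
    Pi.single_eq_of_ne hab, Pi.single_eq_of_ne haw, Pi.single_eq_of_ne hbw,
    Pi.single_eq_of_ne hab.symm, Pi.single_eq_of_ne haw.symm, Pi.single_eq_of_ne hbw.symm]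
  refine ⟨by ring, by ring, by ring⟩

theorem bc_sup (p : Fin N → E) (q : E) : Sup (bc a b w p q) {a, b, w} := by
  intro v hv
  simp only [Finset.mem_insert, Finset.mem_singleton, not_or] at hv
  unfold bc vx
  simp only [Pi.add_apply, Pi.smul_apply, smul_eq_mul, Pi.single_eq_of_ne hv.1,
    Pi.single_eq_of_ne hv.2.1, Pi.single_eq_of_ne hv.2.2]
  ring

theorem ar_sum (A B W q : E) : ar B W q + ar W A q + ar A B q = ar A B W := by
  unfold ar; ring

theorem bc_sum (hab : a ≠ b) (haw : a ≠ w) (hbw : b ≠ w) (p : Fin N → E) (q : E)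
    (h : ar (p a) (p b) (p w) ≠ 0) : ∑ v, bc a b w p q v = 1 := by
  obtain ⟨h1, h2, h3⟩ := bc_vals hab haw hbw p q
  rw [sum3 hab haw hbw _ (fun v hv => bc_sup p q v hv), h1, h2, h3, ← add_div, ← add_div, ar_sum,
    div_self h]

theorem bc_pos (hab : a ≠ b) (haw : a ≠ w) (hbw : b ≠ w) (p : Fin N → E) (q : E)
    (h : ar (p a) (p b) (p w) ≠ 0) : pos p (bc a b w p q) = q := by
  obtain ⟨h1, h2, h3⟩ := bc_vals hab haw hbw p q
  rw [pos3 hab haw hbw p _ (bc_sup p q), h1, h2, h3]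
  have hc : ∀ i : Fin 2, ar (p b) (p w) q * p a i + ar (p w) (p a) q * p b i
      + ar (p a) (p b) q * p w i = ar (p a) (p b) (p w) * q i := by
    intro i
    unfold ar
    fin_cases i
    · simp only [Fin.zero_eta, Fin.isValue]; ring
    · simp only [Fin.mk_one, Fin.isValue]; ring
  ext i
  simp only [PiLp.add_apply, PiLp.smul_apply, smul_eq_mul]
  rw [div_mul_eq_mul_div, div_mul_eq_mul_div, div_mul_eq_mul_div, ← add_div, ← add_div, hc,
    mul_div_cancel_left₀ _ h]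

theorem bc_inv (hab : a ≠ b) (haw : a ≠ w) (hbw : b ≠ w) (p : Fin N → E) (x : Pt N)
    (h : ar (p a) (p b) (p w) ≠ 0) (h1 : ∑ v, x v = 1) (hx : Sup x {a, b, w}) :
    bc a b w p (pos p x) = x := by
  obtain ⟨v1, v2, v3⟩ := bc_vals hab haw hbw p (pos p x)
  obtain ⟨a1, a2, a3⟩ := ar3 (p a) (p b) (p w) (x a) (x b) (x w) (sm3 hab haw hbw x h1 hx)
  rw [← pos3 hab haw hbw p x hx] at a1 a2 a3
  rw [a2, mul_div_cancel_right₀ _ h] at v1
  rw [a3, mul_div_cancel_right₀ _ h] at v2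
  rw [a1, mul_div_cancel_right₀ _ h] at v3
  funext v
  by_cases hv : v ∈ ({a, b, w} : Finset (Fin N))
  · simp only [Finset.mem_insert, Finset.mem_singleton] at hv
    rcases hv with rfl | rfl | rfl
    · exact v1
    · exact v2
    · exact v3
  · rw [bc_sup p _ v hv, hx v hv]

theorem ar_tendsto {ι : Type} {l : Filter ι} {A B C : ι → E} {A0 B0 C0 : E}
    (hA : Tendsto A l (𝓝 A0)) (hB : Tendsto B l (𝓝 B0)) (hC : Tendsto C l (𝓝 C0)) :
    Tendsto (fun i => ar (A i) (B i) (C i)) l (𝓝 (ar A0 B0 C0)) := by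
  have hcoord : ∀ (j : Fin 2) {f : ι → E} {f0 : E}, Tendsto f l (𝓝 f0) →
      Tendsto (fun i => f i j) l (𝓝 (f0 j)) := by
    intro j f f0 hf
    exact ((EuclideanSpace.proj (𝕜 := ℝ) j).continuous.tendsto f0).comp hf
  unfold ar
  exact (((hcoord 0 hB).sub (hcoord 0 hA)).mul ((hcoord 1 hC).sub (hcoord 1 hA))).sub
    (((hcoord 1 hB).sub (hcoord 1 hA)).mul ((hcoord 0 hC).sub (hcoord 0 hA)))

theorem bc_tendsto (ι : Type) (l : Filter ι) (pf : ι → Fin N → E) (qf : ι → E)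
    (p : Fin N → E) (q : E) (h : ar (p a) (p b) (p w) ≠ 0) (hp : Tendsto pf l (𝓝 p))
    (hq : Tendsto qf l (𝓝 q)) :
    Tendsto (fun i => bc a b w (pf i) (qf i)) l (𝓝 (bc a b w p q)) := by
  have hv : ∀ v, Tendsto (fun i => pf i v) l (𝓝 (p v)) := fun v => (tendsto_pi_nhds.1 hp) v
  have hd := ar_tendsto (hv a) (hv b) (hv w)
  unfold bc
  refine (Tendsto.add (Tendsto.add ?_ ?_) ?_)
  · exact ((ar_tendsto (hv b) (hv w) hq).div hd h).smul_const _
  · exact ((ar_tendsto (hv w) (hv a) hq).div hd h).smul_const _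
  · exact ((ar_tendsto (hv a) (hv b) hq).div hd h).smul_const _

end G1

theorem p_G1 : S_G1 := by
  intro N a b w hab haw hbw
  refine ⟨?_, ?_, ?_, ?_, ?_, ?_, ?_⟩
  · intro p x h1 hx
    have h := G1.ar3 (p a) (p b) (p w) (x a) (x b) (x w) (G1.sm3 hab haw hbw x h1 hx)
    rw [← G1.pos3 hab haw hbw p x hx] at h
    exact h
  · intro p q h
    exact ⟨G1.bc_pos hab haw hbw p q h, G1.bc_sum hab haw hbw p q h, G1.bc_sup p q,
      G1.bc_vals hab haw hbw p q⟩
  · intro p x h h1 hx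
    exact G1.bc_inv hab haw hbw p x h h1 hx
  · intro p x y h h1 hx h2 hy hxy
    rw [← G1.bc_inv hab haw hbw p x h h1 hx, ← G1.bc_inv hab haw hbw p y h h2 hy, hxy]
  · intro ι l pf qf p q h hp hq
    exact G1.bc_tendsto ι l pf qf p q h hp hq
  · intro x y z
    refine ⟨?_, ?_, ?_⟩
    · unfold ar; ring
    · unfold ar; ring
    · unfold ar cr
      simp only [PiLp.sub_apply]
  · intro x y z v s
    unfold ar cr
    simp only [PiLp.add_apply, PiLp.sub_apply, PiLp.smul_apply, smul_eq_mul]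
    ring

end Pool.Agent.Lib.MP_9f84a9_co
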