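import Pool.Agent.Lib.MP_9f84a9_co.G.StmG

/-!
# MP_9f84a9_co, piece G11: positivity is open
-/

set_option autoImplicit false

namespace Pool.Agent.Lib.MP_9f84a9_co

open Finset Filter Topology

namespace G11

private theorem sw {N : ℕ} (p : Fin N → E) : ∀ (T : PT N) (a b : Fin N), T.SPos p a b → T.WPos p a b := by
  intro T
  induction T with
  | nil => intro a b _; trivial
  | node w l r ihl ihr =>
    intro a b h
    exact ⟨le_of_lt h.1, ihl a w h.2.1, ihr w b h.2.2⟩

private theorem arc {N : ℕ} (a b w : Fin N) :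
    Continuous (fun p : Fin N → E => ar (p a) (p b) (p w)) := by
  unfold ar
  have h : ∀ (v : Fin N) (i : Fin 2), Continuous (fun p : Fin N → E => (p v) i) := by
    intro v i
    exact (EuclideanSpace.proj i : E →L[ℝ] ℝ).continuous.comp (continuous_apply v)
  exact (((h b 0).sub (h a 0)).mul ((h w 1).sub (h a 1))).sub
    (((h b 1).sub (h a 1)).mul ((h w 0).sub (h a 0)))

private theorem op {N : ℕ} (p : Fin N → E) : ∀ (T : PT N) (a b : Fin N), T.SPos p a b →
    ∀ᶠ p' in 𝓝 p, T.SPos p' a b := by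
  intro T
  induction T with
  | nil => intro a b _; exact Eventually.of_forall (fun _ => trivial)
  | node w l r ihl ihr =>
    intro a b h
    have h1 : ∀ᶠ p' in 𝓝 p, 0 < ar (p' a) (p' b) (p' w) :=
      (arc a b w).continuousAt.eventually (lt_mem_nhds h.1)
    filter_upwards [h1, ihl a w h.2.1, ihr w b h.2.2] with p' q1 q2 q3
    exact ⟨q1, q2, q3⟩

end G11

theorem p_G11 : S_G11 := by
  intro N D p h
  refine ⟨⟨G11.sw p _ _ _ h.1, G11.sw p _ _ _ h.2⟩, ?_⟩
  filter_upwards [G11.op p _ _ _ h.1, G11.op p _ _ _ h.2] with p' q1 q2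
  exact ⟨⟨q1, q2⟩, G11.sw p' _ _ _ q1, G11.sw p' _ _ _ q2⟩

end Pool.Agent.Lib.MP_9f84a9_co
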