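import Pool.Agent.Lib.MP_9f84a9_co.G.StmG

set_option autoImplicit false

namespace Pool.Agent.Lib.MP_9f84a9_co

open Finset Filter Topology

theorem p_G12b : S_A1 → S_A7 → S_B4 → S_B5 → S_SL → S_G11 → S_G12 := by
  intro hA1 hA7 hB4 hB5 hSL hG11
  intro N D p ι l pf sf tf s t hok hsp hpf hsf htf hs ht hsf' htf' hsv htv hstr
  have hCn : Cn D.K := hB5 N D hok
  have hvx : ∀ v ∈ D.vl, In D.K (vx v) := by
    intro v hv
    obtain ⟨f, hf, hvf⟩ := (hB4 N D hok).2.1 v hv
    exact ((hA1 N).2.2.2.2.1 D.K f v hf hvf).1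
  have key : ∀ᶠ i in l, ∀ w : Fin N, w ∈ D.vl → vx w ≠ sf i → vx w ≠ tf i →
      dK D.K (ce (pf i)) (sf i) (tf i) <
        dK D.K (ce (pf i)) (sf i) (vx w) + dK D.K (ce (pf i)) (vx w) (tf i) := by
    rw [eventually_all]
    intro w
    by_cases hw : w ∈ D.vl
    · by_cases h1 : vx w = s
      · filter_upwards [hsv w h1.symm] with i hi _ h2
        exact absurd hi.symm h2
      · by_cases h2 : vx w = t
        · filter_upwards [htv w h2.symm] with i hi _ _ h3
          exact absurd hi.symm h3
        · have hin := hvx w hw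
          have e1 := hA7 N D.K ι l pf p sf tf s t hCn hpf hsf htf hsf' htf' hs ht
          have e2 := hA7 N D.K ι l pf p sf (fun _ => vx w) s (vx w) hCn hpf hsf
            tendsto_const_nhds hsf' (Eventually.of_forall fun _ => hin) hs hin
          have e3 := hA7 N D.K ι l pf p (fun _ => vx w) tf (vx w) t hCn hpf
            tendsto_const_nhds htf (Eventually.of_forall fun _ => hin) htf' hin ht
          have e4 := e1.eventually_lt (e2.add e3) (hstr w hw h1 h2)
          filter_upwards [e4] with i hi _ _ _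
          exact hi
    · exact Eventually.of_forall fun i h => absurd h hw
  filter_upwards [key, hpf.eventually (hG11 N D p hsp).2, hsf', htf'] with i hi1 hi2 hi3 hi4
  rcases hSL N D (pf i) hok hi2.1 (sf i) (tf i) hi3 hi4 with ⟨v, hv, h1, h2, h3⟩ | h
  · exact absurd h3 (not_le.mpr (hi1 v hv h1 h2))
  · exact h

end Pool.Agent.Lib.MP_9f84a9_co
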