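import Pool.Agent.Lib.MP_9f84a9_co.G.StmG

/-!
# MP_9f84a9_co, piece G13: moving the centre edge of a network
-/

set_option autoImplicit false

namespace Pool.Agent.Lib.MP_9f84a9_co

open Finset

namespace G13

variable {N : ℕ}

theorem undo (T T' : Net N × Net N) (h : Net.Mv T T') : Net.Eqv T' T := by
  cases h with
  | sw A B => exact Relation.ReflTransGen.single (Net.Mv.sw B A)
  | lf z l r B =>
    refine (Relation.ReflTransGen.single (Net.Mv.sw l (Net.node z r B))).trans ?_
    refine (Relation.ReflTransGen.single (Net.Mv.rt z r B l)).trans ?_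
    refine (Relation.ReflTransGen.single (Net.Mv.sw B (Net.node z r l))).trans ?_
    refine (Relation.ReflTransGen.single (Net.Mv.lf z r l B)).trans ?_
    refine (Relation.ReflTransGen.single (Net.Mv.sw r (Net.node z l B))).trans ?_
    refine (Relation.ReflTransGen.single (Net.Mv.rt z l B r)).trans ?_
    exact Relation.ReflTransGen.single (Net.Mv.sw B (Net.node z l r))
  | rt z l r B =>
    refine (Relation.ReflTransGen.single (Net.Mv.sw r (Net.node z l B))).trans ?_
    refine (Relation.ReflTransGen.single (Net.Mv.rt z l B r)).trans ?_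
    exact Relation.ReflTransGen.single (Net.Mv.sw B (Net.node z l r))

theorem symm (T T' : Net N × Net N) (h : Net.Eqv T T') : Net.Eqv T' T := by
  induction h with
  | refl => exact Relation.ReflTransGen.refl
  | tail _ h2 ih => exact (undo _ _ h2).trans ih

theorem lv (T T' : Net N × Net N) (h : Net.Mv T T') :
    (T.1.leaves ++ T.2.leaves).Perm (T'.1.leaves ++ T'.2.leaves) := by
  cases h with
  | sw A B => exact List.perm_append_comm
  | lf z l r B =>
    show ((l.leaves ++ r.leaves) ++ B.leaves).Perm (l.leaves ++ (r.leaves ++ B.leaves))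
    rw [List.append_assoc]
  | rt z l r B =>
    show ((l.leaves ++ r.leaves) ++ B.leaves).Perm (r.leaves ++ (l.leaves ++ B.leaves))
    rw [← List.append_assoc]
    exact List.perm_append_comm.append_right _

theorem nd (T T' : Net N × Net N) (h : Net.Mv T T') :
    (T.1.nodes ++ T.2.nodes).Perm (T'.1.nodes ++ T'.2.nodes) := by
  cases h with
  | sw A B => exact List.perm_append_comm
  | lf z l r B =>
    show ((z :: (l.nodes ++ r.nodes)) ++ B.nodes).Perm (l.nodes ++ (z :: (r.nodes ++ B.nodes)))
    rw [List.cons_append, List.append_assoc]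
    exact List.perm_middle.symm
  | rt z l r B =>
    show ((z :: (l.nodes ++ r.nodes)) ++ B.nodes).Perm (r.nodes ++ (z :: (l.nodes ++ B.nodes)))
    rw [List.cons_append]
    refine List.Perm.trans ?_ List.perm_middle.symm
    refine List.Perm.cons z ?_
    rw [← List.append_assoc]
    exact List.perm_append_comm.append_right _

theorem tl (d : Pt N → Pt N → ℝ) (hd : ∀ x y, d x y = d y x) (T T' : Net N × Net N)
    (h : Net.Mv T T') : Net.tlen d T = Net.tlen d T' := by
  cases h with
  | sw A B =>
    show d A.top B.top + A.len d + B.len d = d B.top A.top + B.len d + A.len d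
    rw [hd]
    ring
  | lf z l r B =>
    show d z B.top + (d z l.top + d z r.top + l.len d + r.len d) + B.len d =
      d l.top z + l.len d + (d z r.top + d z B.top + r.len d + B.len d)
    rw [hd l.top z]
    ring
  | rt z l r B =>
    show d z B.top + (d z l.top + d z r.top + l.len d + r.len d) + B.len d =
      d r.top z + r.len d + (d z l.top + d z B.top + l.len d + B.len d)
    rw [hd r.top z]
    ring

theorem cnt (A : Net N) : A.leaves.length = A.nodes.length + 1 := by
  induction A with
  | leaf v => rfl
  | node z l r ihl ihr =>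
    show (l.leaves ++ r.leaves).length = (z :: (l.nodes ++ r.nodes)).length + 1
    rw [List.length_append, List.length_cons, List.length_append, ihl, ihr]
    ring

theorem fnd (z : Pt N) (A : Net N) : ∀ B : Net N, z ∈ A.nodes →
    ∃ l r B', Net.Eqv (A, B) (Net.node z l r, B') := by
  induction A with
  | leaf v =>
    intro B h
    exact absurd h List.not_mem_nil
  | node z' l r ihl ihr =>
    intro B h
    have h' : z = z' ∨ z ∈ l.nodes ∨ z ∈ r.nodes := by
      have h1 : z ∈ z' :: (l.nodes ++ r.nodes) := h
      rw [List.mem_cons, List.mem_append] at h1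
      exact h1
    rcases h' with rfl | h' | h'
    · exact ⟨l, r, B, Relation.ReflTransGen.refl⟩
    · obtain ⟨l1, r1, B1, h1⟩ := ihl (Net.node z' r B) h'
      exact ⟨l1, r1, B1, (Relation.ReflTransGen.single (Net.Mv.lf z' l r B)).trans h1⟩
    · obtain ⟨l1, r1, B1, h1⟩ := ihr (Net.node z' l B) h'
      exact ⟨l1, r1, B1, (Relation.ReflTransGen.single (Net.Mv.rt z' l r B)).trans h1⟩

theorem flf (v : Fin N) (A : Net N) : ∀ B : Net N, v ∈ A.leaves →
    ∃ B', Net.Eqv (A, B) (Net.leaf v, B') := by
  induction A with
  | leaf w =>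
    intro B h
    have h1 : v ∈ [w] := h
    rw [List.mem_singleton] at h1
    subst h1
    exact ⟨B, Relation.ReflTransGen.refl⟩
  | node z' l r ihl ihr =>
    intro B h
    have h' : v ∈ l.leaves ∨ v ∈ r.leaves := by
      have h1 : v ∈ l.leaves ++ r.leaves := h
      rw [List.mem_append] at h1
      exact h1
    rcases h' with h' | h'
    · obtain ⟨B1, h1⟩ := ihl (Net.node z' r B) h'
      exact ⟨B1, (Relation.ReflTransGen.single (Net.Mv.lf z' l r B)).trans h1⟩
    · obtain ⟨B1, h1⟩ := ihr (Net.node z' l B) h'
      exact ⟨B1, (Relation.ReflTransGen.single (Net.Mv.rt z' l r B)).trans h1⟩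

end G13

theorem p_G13 : S_G13 := by
  intro N T T'
  refine ⟨fun h => ?_, ?_, ?_, ?_⟩
  · refine ⟨G13.symm T T' h, ?_, ?_, ?_⟩
    · induction h with
      | refl => exact List.Perm.refl _
      | tail _ h2 ih => exact ih.trans (G13.lv _ _ h2)
    · induction h with
      | refl => exact List.Perm.refl _
      | tail _ h2 ih => exact ih.trans (G13.nd _ _ h2)
    · intro d hd
      induction h with
      | refl => rfl
      | tail _ h2 ih => exact ih.trans (G13.tl d hd _ _ h2)
  · rw [List.length_append, List.length_append, G13.cnt, G13.cnt]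
    ring
  · intro z hz
    rw [List.mem_append] at hz
    obtain ⟨A, B⟩ := T
    rcases hz with hz | hz
    · exact G13.fnd z A B hz
    · obtain ⟨l, r, B', h⟩ := G13.fnd z B A hz
      exact ⟨l, r, B', (Relation.ReflTransGen.single (Net.Mv.sw A B)).trans h⟩
  · intro v hv
    rw [List.mem_append] at hv
    obtain ⟨A, B⟩ := T
    rcases hv with hv | hv
    · exact G13.flf v A B hv
    · obtain ⟨B', h⟩ := G13.flf v B A hv
      exact ⟨B', (Relation.ReflTransGen.single (Net.Mv.sw A B)).trans h⟩

end Pool.Agent.Lib.MP_9f84a9_co
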