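import Pool.Agent.Lib.MP_9f84a9_co.G.StmG

/-!
# MP_9f84a9_co, piece G14: symbolic networks
-/

set_option autoImplicit false

namespace Pool.Agent.Lib.MP_9f84a9_co

open Finset

namespace G14

variable {N k : ℕ}

theorem top (z : Fin k → Pt N) (A : SNet N k) : (A.real z).top = rp z A.top := by
  cases A with
  | leaf v => rfl
  | node i l r => rfl

theorem lvs (z : Fin k → Pt N) (A : SNet N k) :
    (A.real z).leaves = A.leaves ∧ (A.real z).nodes = A.names.map z := by
  induction A with
  | leaf v => exact ⟨rfl, rfl⟩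
  | node i l r ihl ihr =>
    constructor
    · show (l.real z).leaves ++ (r.real z).leaves = l.leaves ++ r.leaves
      rw [ihl.1, ihr.1]
    · show z i :: ((l.real z).nodes ++ (r.real z).nodes) = (i :: (l.names ++ r.names)).map z
      rw [ihl.2, ihr.2, List.map_cons, List.map_append]

theorem cen (z : Fin k → Pt N) (A : SNet N k) : ∀ (B : Net N), ∀ e ∈ A.edges,
    ∃ T', Net.Eqv (A.real z, B) T' ∧ T'.1.top = rp z e.1 ∧ T'.2.top = rp z e.2 := by
  induction A with
  | leaf v =>
    intro B e he
    exact absurd he List.not_mem_nil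
  | node i l r ihl ihr =>
    intro B e he
    have he' : e = (Sum.inr i, l.top) ∨ e = (Sum.inr i, r.top) ∨ e ∈ l.edges ∨ e ∈ r.edges := by
      have h1 : e ∈ (Sum.inr i, l.top) :: (Sum.inr i, r.top) :: (l.edges ++ r.edges) := he
      rw [List.mem_cons, List.mem_cons, List.mem_append] at h1
      exact h1
    have hl : Net.Eqv ((SNet.node i l r).real z, B) (l.real z, Net.node (z i) (r.real z) B) :=
      Relation.ReflTransGen.single (Net.Mv.lf (z i) (l.real z) (r.real z) B)
    have hr : Net.Eqv ((SNet.node i l r).real z, B) (r.real z, Net.node (z i) (l.real z) B) :=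
      Relation.ReflTransGen.single (Net.Mv.rt (z i) (l.real z) (r.real z) B)
    rcases he' with rfl | rfl | he' | he'
    · exact ⟨(Net.node (z i) (r.real z) B, l.real z),
        hl.trans (Relation.ReflTransGen.single (Net.Mv.sw _ _)), rfl, top z l⟩
    · exact ⟨(Net.node (z i) (l.real z) B, r.real z),
        hr.trans (Relation.ReflTransGen.single (Net.Mv.sw _ _)), rfl, top z r⟩
    · obtain ⟨T', h1, h2⟩ := ihl (Net.node (z i) (r.real z) B) e he'
      exact ⟨T', hl.trans h1, h2⟩
    · obtain ⟨T', h1, h2⟩ := ihr (Net.node (z i) (l.real z) B) e he'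
      exact ⟨T', hr.trans h1, h2⟩

theorem ln (z : Fin k → Pt N) (d : Pt N → Pt N → ℝ) (A : SNet N k) :
    (A.real z).len d = (A.edges.map fun e => d (rp z e.1) (rp z e.2)).sum := by
  induction A with
  | leaf v => rfl
  | node i l r ihl ihr =>
    show d (z i) (l.real z).top + d (z i) (r.real z).top + (l.real z).len d + (r.real z).len d =
      (((Sum.inr i, l.top) :: (Sum.inr i, r.top) :: (l.edges ++ r.edges)).map
        fun e => d (rp z e.1) (rp z e.2)).sum
    rw [List.map_cons, List.map_cons, List.map_append, List.sum_cons, List.sum_cons,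
      List.sum_append, ihl, ihr, top, top]
    show _ = d (z i) (rp z l.top) + (d (z i) (rp z r.top) + _)
    ring

theorem topn (A : SNet N k) : (∀ i, A.top = Sum.inr i → i ∈ A.names) ∧
    (∀ v, A.top = Sum.inl v → v ∈ A.leaves) := by
  cases A with
  | leaf v =>
    refine ⟨fun i h => ?_, fun w h => ?_⟩
    · have h1 : (Sum.inl v : Fin N ⊕ Fin k) = Sum.inr i := h
      exact absurd h1 (by simp)
    · have h1 : (Sum.inl v : Fin N ⊕ Fin k) = Sum.inl w := h
      have h2 : v = w := Sum.inl_injective h1
      subst h2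
      exact List.mem_singleton.2 rfl
  | node i l r =>
    refine ⟨fun j h => ?_, fun w h => ?_⟩
    · have h1 : (Sum.inr i : Fin N ⊕ Fin k) = Sum.inr j := h
      have h2 : i = j := Sum.inr_injective h1
      subst h2
      exact List.mem_cons_self
    · have h1 : (Sum.inr i : Fin N ⊕ Fin k) = Sum.inl w := h
      exact absurd h1 (by simp)

theorem edn (A : SNet N k) : ∀ e ∈ A.edges,
    (∀ i, e.1 = Sum.inr i ∨ e.2 = Sum.inr i → i ∈ A.names) ∧
      (∀ v, e.1 = Sum.inl v ∨ e.2 = Sum.inl v → v ∈ A.leaves) := by
  induction A with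
  | leaf v =>
    intro e he
    exact absurd he List.not_mem_nil
  | node i l r ihl ihr =>
    intro e he
    have he' : e = (Sum.inr i, l.top) ∨ e = (Sum.inr i, r.top) ∨ e ∈ l.edges ∨ e ∈ r.edges := by
      have h1 : e ∈ (Sum.inr i, l.top) :: (Sum.inr i, r.top) :: (l.edges ++ r.edges) := he
      rw [List.mem_cons, List.mem_cons, List.mem_append] at h1
      exact h1
    have hn : ∀ j, j ∈ (SNet.node i l r : SNet N k).names ↔ j = i ∨ j ∈ l.names ∨ j ∈ r.names := by
      intro j
      show j ∈ i :: (l.names ++ r.names) ↔ _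
      rw [List.mem_cons, List.mem_append]
    have hv : ∀ v, v ∈ (SNet.node i l r : SNet N k).leaves ↔ v ∈ l.leaves ∨ v ∈ r.leaves := by
      intro v
      show v ∈ l.leaves ++ r.leaves ↔ _
      rw [List.mem_append]
    rcases he' with rfl | rfl | he' | he'
    · refine ⟨fun j h => ?_, fun v h => ?_⟩
      · rw [hn]
        rcases h with h | h
        · exact Or.inl (Sum.inr_injective h).symm
        · exact Or.inr (Or.inl ((topn l).1 j h))
      · rw [hv]
        rcases h with h | h
        · exact absurd h (by simp)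
        · exact Or.inl ((topn l).2 v h)
    · refine ⟨fun j h => ?_, fun v h => ?_⟩
      · rw [hn]
        rcases h with h | h
        · exact Or.inl (Sum.inr_injective h).symm
        · exact Or.inr (Or.inr ((topn r).1 j h))
      · rw [hv]
        rcases h with h | h
        · exact absurd h (by simp)
        · exact Or.inr ((topn r).2 v h)
    · obtain ⟨h1, h2⟩ := ihl e he'
      exact ⟨fun j h => (hn j).2 (Or.inr (Or.inl (h1 j h))), fun v h => (hv v).2 (Or.inl (h2 v h))⟩
    · obtain ⟨h1, h2⟩ := ihr e he'
      exact ⟨fun j h => (hn j).2 (Or.inr (Or.inr (h1 j h))), fun v h => (hv v).2 (Or.inr (h2 v h))⟩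

end G14

theorem p_G14 : S_G14 := by
  intro N k z
  refine ⟨G14.top z, G14.lvs z, ?_, ?_, ?_⟩
  · rintro ⟨A, B⟩ e he
    rw [List.mem_cons, List.mem_append] at he
    rcases he with rfl | he | he
    · exact ⟨(A.real z, B.real z), Relation.ReflTransGen.refl, G14.top z A, G14.top z B⟩
    · exact G14.cen z A (B.real z) e he
    · obtain ⟨T', h1, h2⟩ := G14.cen z B (A.real z) e he
      exact ⟨T', (Relation.ReflTransGen.single (Net.Mv.sw _ _)).trans h1, h2⟩
  · rintro ⟨A, B⟩ d
    show d (A.real z).top (B.real z).top + (A.real z).len d + (B.real z).len d = _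
    rw [List.map_cons, List.map_append, List.sum_cons, List.sum_append, G14.ln, G14.ln, G14.top,
      G14.top]
    ring
  · rintro ⟨A, B⟩ e he
    rw [List.mem_cons, List.mem_append] at he
    simp only [List.mem_append]
    rcases he with rfl | he | he
    · refine ⟨fun i h => ?_, fun v h => ?_⟩
      · rcases h with h | h
        · exact Or.inl ((G14.topn A).1 i h)
        · exact Or.inr ((G14.topn B).1 i h)
      · rcases h with h | h
        · exact Or.inl ((G14.topn A).2 v h)
        · exact Or.inr ((G14.topn B).2 v h)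
    · obtain ⟨h1, h2⟩ := G14.edn A e he
      exact ⟨fun i h => Or.inl (h1 i h), fun v h => Or.inl (h2 v h)⟩
    · obtain ⟨h1, h2⟩ := G14.edn B e he
      exact ⟨fun i h => Or.inr (h1 i h), fun v h => Or.inr (h2 v h)⟩

end Pool.Agent.Lib.MP_9f84a9_co
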