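import Pool.Agent.Lib.MP_9f84a9_co.G.StmG

/-!
# MP_9f84a9_co, module G: the network of an optimal configuration is shortest in its disc
-/

set_option autoImplicit false

namespace Pool.Agent.Lib.MP_9f84a9_co

theorem p_G15 : S_G15 := by
  intro N Cl P R1 S hopt q hq T' hperm hnod
  obtain ⟨S1, S2, rfl⟩ := List.append_of_mem hq
  let q' : Piece N := ⟨q.D, q.p, q.lab, T'⟩
  have hlv : q'.lv.Perm q.lv := hperm
  have hmem := hopt.mem
  have hok := hmem.ok q hq
  have hmem' : InD Cl P (S1 ++ q' :: S2) := by
    refine ⟨?_, ?_, ?_, ?_⟩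
    · intro r hr
      rw [List.mem_append, List.mem_cons] at hr
      rcases hr with hr | rfl | hr
      · exact hmem.ok r (List.mem_append_left _ hr)
      · exact ⟨hok.dok, hok.wpos, hok.labs, hnod, fun v hv => hok.lvs v (hlv.mem_iff.1 hv),
          hok.diam⟩
      · exact hmem.ok r (List.mem_append_right _ (List.mem_cons_of_mem _ hr))
    · intro a ha b hb
      refine Relation.ReflTransGen.mono ?_ _ _ (hmem.conn a ha b hb)
      rintro x y ⟨r, hr, hx, hy⟩
      rw [List.mem_append, List.mem_cons] at hr
      rcases hr with hr | rfl | hr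
      · exact ⟨r, List.mem_append_left _ hr, hx, hy⟩
      · exact ⟨q', List.mem_append_right _ List.mem_cons_self,
          ((hlv.map r.lab).mem_iff).2 hx, ((hlv.map r.lab).mem_iff).2 hy⟩
      · exact ⟨r, List.mem_append_right _ (List.mem_cons_of_mem _ hr), hx, hy⟩
    · have h := hmem.cnt
      rw [List.map_append, List.map_cons] at h ⊢
      rw [hlv.length_eq]
      exact h
    · intro l hl hj
      refine hmem.mst l ?_ hj
      intro t ht
      obtain ⟨r, hr, v, hv, w, hw, h1, h2, h3⟩ := hl t ht
      rw [List.mem_append, List.mem_cons] at hr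
      rcases hr with hr | rfl | hr
      · exact ⟨r, List.mem_append_left _ hr, v, hv, w, hw, h1, h2, h3⟩
      · exact ⟨q, hq, v, hv, w, hw, h1, h2, h3⟩
      · exact ⟨r, List.mem_append_right _ (List.mem_cons_of_mem _ hr), v, hv, w, hw, h1, h2, h3⟩
  have h := hopt.o1 _ hmem'
  unfold Lc at h
  rw [List.map_append, List.map_append, List.sum_append, List.sum_append, List.map_cons,
    List.map_cons, List.sum_cons, List.sum_cons] at h
  have h' : q.L ≤ q'.L := by linarith
  exact h'

end Pool.Agent.Lib.MP_9f84a9_co
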