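import Pool.Agent.Lib.MP_9f84a9_co.G.StmG

/-!
# MP_9f84a9_co, piece G16: straight chains start inwards at a boundary edge
-/

set_option autoImplicit false

namespace Pool.Agent.Lib.MP_9f84a9_co

open Finset Filter Topology

theorem p_G16 : S_A1 → S_A4 → S_A6 → S_B1 → S_B3 → S_B5 → S_G1 → S_G2 → S_G3 → S_G16 := by
  intro hA1 hA4 hA6 hB1 hB3 hB5 hG1 hG2 _ N D0 p a b w l r z y hok0 hsp0 heqv hz0 hza hzb hzab
    hy0 hd0
  obtain ⟨_, hokiff, hK, _, hp⟩ := hB1 N _ _ heqv
  have hok : (Dsc.mk a b (PT.node w l r) PT.nil).ok := hokiff.1 hok0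
  have hsp : (Dsc.mk a b (PT.node w l r) PT.nil).SPos p := (hp p).2.1.1 hsp0
  have hCn := hB5 N _ hok
  rw [hK] at hz0 hy0 hd0
  have hcost : IsCost (ce p) := (hA1 N).1 p
  -- distinct vertices
  have hab : a ≠ b := by
    intro h
    have h1 := hok
    simp [Dsc.ok, Dsc.vl, PT.vs, h] at h1
  have haw : a ≠ w := by
    intro h
    have h1 := hok
    simp [Dsc.ok, Dsc.vl, PT.vs, h] at h1
  have hbw : b ≠ w := by
    intro h
    have h1 := hok
    simp [Dsc.ok, Dsc.vl, PT.vs, h] at h1
  have har : 0 < ar (p a) (p b) (p w) := hsp.1.1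
  obtain ⟨g1, _, _, g4, _, _, g7⟩ := hG1 N a b w hab haw hbw
  -- `z` is supported in `{a,b}`
  have hzv : ∀ v, v ≠ a → v ≠ b → z v = 0 := by
    intro v hva hvb
    have h1 : z a + z b + z v ≤ ∑ u, z u := by
      have h2 : ∑ u ∈ ({a, b, v} : Finset (Fin N)), z u ≤ ∑ u, z u :=
        Finset.sum_le_sum_of_subset_of_nonneg (Finset.subset_univ _) (fun u _ _ => hz0.1 u)
      have h3 : ∑ u ∈ ({a, b, v} : Finset (Fin N)), z u = z a + z b + z v := by
        rw [Finset.sum_insert, Finset.sum_insert, Finset.sum_singleton]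
        · ring
        · simp only [Finset.mem_singleton]; exact fun h => hvb h.symm
        · simp only [Finset.mem_insert, Finset.mem_singleton, not_or]
          exact ⟨hab, fun h => hva h.symm⟩
      linarith
    have h4 := hz0.1 v
    have h5 := hz0.2.1
    linarith
  have hzw : z w = 0 := hzv w (fun h => haw h.symm) (fun h => hbw h.symm)
  have hzs : Sup z {a, b, w} := by
    intro v hv
    simp only [Finset.mem_insert, Finset.mem_singleton, not_or] at hv
    exact hzv v hv.1 hv.2.1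
  by_cases hyz : pos p y = pos p z
  · rw [hyz, sub_self]
    simp [cr]
  obtain ⟨k, hpath, hmin⟩ := hA6 N _ p hCn z y hz0 hy0
  obtain ⟨_, u, hu0, huk, hstp, hsum⟩ := ((hA4 N _ (ce p) hcost).1 z y k _).1 hpath
  have hk : 0 < k := by
    rcases Nat.eq_zero_or_pos k with h | h
    · exfalso
      subst h
      apply hyz
      rw [← huk, hu0]
    · exact h
  -- the first step
  obtain ⟨_, hu1In, f, hf, hs0, hs1⟩ := hstp 0 hk
  rw [hu0] at hs0
  rw [Nat.zero_add] at hu1In hs1
  have haf : a ∈ f := by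
    by_contra h
    have := hs0 a h
    linarith
  have hbf : b ∈ f := by
    by_contra h
    have := hs0 b h
    linarith
  have hfe : f = {a, b, w} := by
    rcases hB3 N _ hok f hf haf hbf with ⟨h, _⟩ | ⟨w', l', r', h, h'⟩ | ⟨w', l', r', h, _⟩
    · exact absurd h (by simp)
    · simp only [PT.node.injEq] at h
      rw [h', ← h.1]
    · exact absurd h (by simp)
  subst hfe
  have hsplit : ∑ i ∈ range k, ce p (u i) (u (i + 1)) =
      ce p (u 0) (u 1) + ∑ i ∈ Ico 1 k, ce p (u i) (u (i + 1)) := by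
    rw [Finset.range_eq_Ico, Finset.sum_eq_sum_Ico_succ_bot hk]
  -- the first step is not degenerate
  have hne : pos p (u 1) ≠ pos p z := by
    intro h
    have h1 : u 1 = z := g4 p (u 1) z har.ne' hu1In.2.1 hs1 hz0.2.1 hzs h
    have h2 := (hG2 N _ (ce p) hcost).2.2 u k 1 k (by rw [hu0]; exact hz0) hstp hk le_rfl
    rw [h1, huk] at h2
    have h3 : ∑ i ∈ Ico 1 k, ce p (u i) (u (i + 1)) =
        dK (Dsc.mk a b (PT.node w l r) PT.nil).K (ce p) z y := by
      rw [hsum, hsplit, hu0, h1, hcost.self, zero_add]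
    rw [h3] at h2
    exact hmin (k - 1) (by omega) h2
  have htri : dist (pos p (u 1)) (pos p y) ≤ ∑ i ∈ Ico 1 k, ce p (u i) (u (i + 1)) := by
    have := dist_le_Ico_sum_dist (fun i => pos p (u i)) (m := 1) (n := k) hk
    simp only [huk] at this
    exact this
  have heq : dist (pos p z) (pos p (u 1)) + dist (pos p (u 1)) (pos p y) =
      dist (pos p z) (pos p y) := by
    apply le_antisymm
    · calc dist (pos p z) (pos p (u 1)) + dist (pos p (u 1)) (pos p y)
          ≤ ce p (u 0) (u 1) + ∑ i ∈ Ico 1 k, ce p (u i) (u (i + 1)) := by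
            rw [hu0]
            exact add_le_add le_rfl htri
        _ = dist (pos p z) (pos p y) := by rw [← hsplit, ← hsum, hd0]
    · exact dist_triangle _ _ _
  have hW : Wbtw ℝ (pos p z) (pos p (u 1)) (pos p y) := dist_add_dist_eq_iff.1 heq
  obtain ⟨t, ⟨ht0, _⟩, ht⟩ := hW
  have ht' : pos p (u 1) = pos p z + t • (pos p y - pos p z) := by
    rw [← ht, AffineMap.lineMap_apply, vsub_eq_sub, vadd_eq_add, add_comm]
  have htpos : 0 < t := by
    rcases ht0.lt_or_eq with h | h
    · exact h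
    · exfalso
      apply hne
      rw [ht', ← h, zero_smul, add_zero]
  have e1 := (g1 p (u 1) hu1In.2.1 hs1).1
  have e2 := (g1 p z hz0.2.1 hzs).1
  have e3 := g7 (p a) (p b) (pos p z) (pos p y - pos p z) t
  rw [← ht', e1, e2, hzw, zero_mul, zero_add] at e3
  have h5 : 0 ≤ u 1 w * ar (p a) (p b) (p w) := mul_nonneg (hu1In.1 w) har.le
  rw [e3] at h5
  exact nonneg_of_mul_nonneg_right h5 htpos

end Pool.Agent.Lib.MP_9f84a9_co
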