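import Pool.Agent.Lib.MP_9f84a9_co.G.StmG

set_option autoImplicit false

/-!
# MP_9f84a9_co, piece G17
-/

namespace Pool.Agent.Lib.MP_9f84a9_co

open Finset Filter Topology

private theorem g17_cr_smul (u v : E) (s : ℝ) : cr u (s • v) = s * cr u v := by
  unfold cr
  simp only [PiLp.smul_apply, smul_eq_mul]
  ring

private theorem g17_cr_add (u v v' : E) : cr u (v + v') = cr u v + cr u v' := by
  unfold cr
  simp only [PiLp.add_apply]
  ring

private theorem g17_cr_zero (u : E) : cr u 0 = 0 := by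
  unfold cr
  simp

private theorem g17_cr_neg (x y v : E) : cr (x - y) v = - cr (y - x) v := by
  unfold cr
  simp only [PiLp.sub_apply]
  ring

private theorem g17_cr_sum (u : E) (L : List E) (h : ∀ v ∈ L, 0 ≤ cr u v) : 0 ≤ cr u L.sum := by
  induction L with
  | nil => simp [g17_cr_zero]
  | cons v L ih =>
    rw [List.sum_cons, g17_cr_add]
    have h1 := h v (by simp)
    have h2 := ih (fun v hv => h v (List.mem_cons_of_mem _ hv))
    linarith

private theorem g17_core (hG1 : S_G1) {N : ℕ} (K : Cx N) (p : Fin N → E) (z : Pt N)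
    (a b w : Fin N) (hab : a ≠ b) (haw : a ≠ w) (hbw : b ≠ w) (hf : {a, b, w} ∈ K)
    (har : 0 < ar (p a) (p b) (p w)) (hz0 : ∀ v, 0 ≤ z v) (hz1 : ∑ v, z v = 1)
    (hzs : Sup z {a, b, w}) (hza : 0 < z a) (hzb : 0 < z b) (v : E)
    (hzw : 0 < z w ∨ 0 ≤ cr (p b - p a) v) :
    ∃ zf : ℝ → Pt N, Tendsto zf (𝓝[>] 0) (𝓝 z) ∧ ∀ᶠ ε in 𝓝[>] (0 : ℝ), Stp K z (zf ε) ∧
      pos p (zf ε) = pos p z + ε • v := by
  obtain ⟨g1, g2, g3, -, g5, -, g7⟩ := hG1 N a b w hab haw hbw
  have har' : ar (p a) (p b) (p w) ≠ 0 := har.ne'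
  refine ⟨fun ε => bc a b w p (pos p z + ε • v), ?_, ?_⟩
  · have h1 : Tendsto (fun ε : ℝ => pos p z + ε • v) (𝓝[>] 0) (𝓝 (pos p z)) := by
      have h2 : Continuous (fun ε : ℝ => pos p z + ε • v) := by fun_prop
      have h3 := (h2.tendsto 0).mono_left (nhdsWithin_le_nhds (s := Set.Ioi (0 : ℝ)))
      simpa using h3
    have h4 := g5 ℝ (𝓝[>] 0) (fun _ => p) (fun ε => pos p z + ε • v) p (pos p z) har'
      tendsto_const_nhds h1
    rwa [g3 p z har' hz1 hzs] at h4
  · have h1 : Tendsto (fun ε : ℝ => pos p z + ε • v) (𝓝[>] 0) (𝓝 (pos p z)) := by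
      have h2 : Continuous (fun ε : ℝ => pos p z + ε • v) := by fun_prop
      have h3 := (h2.tendsto 0).mono_left (nhdsWithin_le_nhds (s := Set.Ioi (0 : ℝ)))
      simpa using h3
    have h4 := g5 ℝ (𝓝[>] 0) (fun _ => p) (fun ε => pos p z + ε • v) p (pos p z) har'
      tendsto_const_nhds h1
    rw [g3 p z har' hz1 hzs] at h4
    have h5 := tendsto_pi_nhds.1 h4
    have ea : ∀ᶠ ε in 𝓝[>] (0 : ℝ), 0 < bc a b w p (pos p z + ε • v) a :=
      (h5 a).eventually (lt_mem_nhds hza)
    have eb : ∀ᶠ ε in 𝓝[>] (0 : ℝ), 0 < bc a b w p (pos p z + ε • v) b :=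
      (h5 b).eventually (lt_mem_nhds hzb)
    have ew : ∀ᶠ ε in 𝓝[>] (0 : ℝ), 0 ≤ bc a b w p (pos p z + ε • v) w := by
      rcases hzw with hzw | hzw
      · exact ((h5 w).eventually (lt_mem_nhds hzw)).mono fun ε h => h.le
      · filter_upwards [self_mem_nhdsWithin] with ε hε
        have hε' : 0 < ε := hε
        obtain ⟨-, -, -, -, -, e6⟩ := g2 p (pos p z + ε • v) har'
        rw [e6, g7, (g1 p z hz1 hzs).1]
        have := hz0 w
        positivity
    filter_upwards [ea, eb, ew] with ε ha hb hw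
    obtain ⟨e1, e2, e3, -, -, -⟩ := g2 p (pos p z + ε • v) har'
    refine ⟨⟨⟨hz0, hz1, _, hf, hzs⟩, ⟨?_, e2, _, hf, e3⟩, _, hf, hzs, e3⟩, e1⟩
    intro u
    by_cases hu : u ∈ ({a, b, w} : Finset (Fin N))
    · simp only [Finset.mem_insert, Finset.mem_singleton] at hu
      rcases hu with rfl | rfl | rfl
      · exact ha.le
      · exact hb.le
      · exact hw
    · exact (e3 u hu).ge

private theorem g17_sup {N : ℕ} (z : Pt N) (a b : Fin N) (hab : a ≠ b) (hz0 : ∀ v, 0 ≤ z v)
    (hz1 : ∑ v, z v = 1) (h : z a + z b = 1) : ∀ v, v ≠ a → v ≠ b → z v = 0 := by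
  intro v hva hvb
  have h1 : ∑ u ∈ ({a, b, v} : Finset (Fin N)), z u ≤ ∑ u, z u :=
    Finset.sum_le_sum_of_subset_of_nonneg (Finset.subset_univ _) (fun u _ _ => hz0 u)
  rw [Finset.sum_insert (by
      simp only [Finset.mem_insert, Finset.mem_singleton, not_or]
      exact ⟨hab, fun e => hva e.symm⟩),
    Finset.sum_insert (by
      simp only [Finset.mem_singleton]
      exact fun e => hvb e.symm), Finset.sum_singleton, hz1] at h1
  have h2 := hz0 v
  linarith

private theorem g17_facK {N : ℕ} (a b w : Fin N) (l r R : PT N) :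
    ({a, b, w} : Finset (Fin N)) ∈ (Dsc.mk a b (PT.node w l r) R).K := by
  unfold Dsc.K
  rw [if_neg (by rintro ⟨h, -⟩; exact absurd h (by simp))]
  exact Finset.mem_union_left _ (Finset.mem_insert_self _ _)

private theorem g17_dist {N : ℕ} (a b w : Fin N) (l r R : PT N)
    (h : (Dsc.mk a b (PT.node w l r) R).ok) : a ≠ b ∧ a ≠ w ∧ b ≠ w := by
  unfold Dsc.ok Dsc.vl at h
  simp only [PT.vs, List.cons_append, List.nodup_cons, List.mem_cons, not_or] at h
  exact ⟨h.1.1, h.1.2.1, h.2.1.1⟩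

theorem p_G17 : S_A1 → S_B1 → S_B4 → S_G1 → S_G3 → S_G4 → S_G16 → S_G17 := by
  intro _ hB1 hB4 hG1 hG3 hG4 hG16 N D p z ys hok hsp hone hz hzv hys
  have hz' := hz
  obtain ⟨hz0, hz1, g, hgK, hzg⟩ := hz'
  rcases hG4 N D p z hok hsp hone hz hzv with ⟨f, hfK, hf3, hfz⟩ | ⟨a, b, w, l, r, R, he, hza, hzb, hzab⟩
  · -- inside a facet
    have hfg : f ⊆ g := by
      intro v hv
      by_contra hvg
      have h1 := hzg v hvg
      have h2 := hfz v hv
      linarith
    have hg3 : g.card = 3 := by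
      rcases (hB4 N D hok).2.2.1 g hgK with h | h
      · exact h
      · exact absurd ⟨h.1, h.2.1⟩ hone
    have hfe : f = g := Finset.eq_of_subset_of_card_le hfg (by rw [hg3, hf3])
    subst hfe
    obtain ⟨x, y, t, hxy, -, -, hft⟩ := Finset.card_eq_three.1 hf3
    have hx : x ∈ f := by rw [hft]; simp
    have hy : y ∈ f := by rw [hft]; simp
    obtain ⟨a, b, w, l, r, R, -, hfe, hab, haw, hbw, har, -⟩ :=
      (hG3 N D p hok hsp hone).1 f hfK x hx y hy hxy
    rw [hfe] at hfK hzg hfz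
    exact g17_core hG1 D.K p z a b w hab haw hbw hfK har hz0 hz1 hzg (hfz a (by simp))
      (hfz b (by simp)) _ (Or.inl (hfz w (by simp)))
  · -- on an edge
    obtain ⟨-, hok1, hK1, -, hp1⟩ := hB1 N D _ he
    have hok' := hok1.1 hok
    have hsp' := (hp1 p).2.1.1 hsp
    obtain ⟨hab, haw, hbw⟩ := g17_dist a b w l r R hok'
    have hsup := g17_sup z a b hab hz0 hz1 hzab
    have har : 0 < ar (p a) (p b) (p w) := hsp'.1.1
    have hfK : ({a, b, w} : Finset (Fin N)) ∈ D.K := by
      rw [hK1]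
      exact g17_facK a b w l r R
    have hzs : Sup z {a, b, w} := by
      intro v hv
      simp only [Finset.mem_insert, Finset.mem_singleton, not_or] at hv
      exact hsup v hv.1 hv.2.1
    by_cases hc : 0 ≤ cr (p b - p a) (ys.map fun y => uni (pos p y - pos p z)).sum
    · exact g17_core hG1 D.K p z a b w hab haw hbw hfK har hz0 hz1 hzs hza hzb _ (Or.inr hc)
    · cases R with
      | nil =>
        exfalso
        apply hc
        apply g17_cr_sum
        intro v hv
        rw [List.mem_map] at hv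
        obtain ⟨y, hy, rfl⟩ := hv
        have h1 := hG16 N D p a b w l r z y hok hsp he hz hza hzb hzab (hys y hy).1 (hys y hy).2
        unfold uni
        rw [g17_cr_smul]
        positivity
      | node x l' r' =>
        have he2 : Dsc.Eqv D ⟨b, a, PT.node x l' r', PT.node w l r⟩ :=
          he.tail (Dsc.Mv.sw a b (PT.node w l r) (PT.node x l' r'))
        obtain ⟨-, hok2, hK2, -, hp2⟩ := hB1 N D _ he2
        have hok'' := hok2.1 hok
        have hsp'' := (hp2 p).2.1.1 hsp
        obtain ⟨hba, hbx, hax⟩ := g17_dist b a x l' r' (PT.node w l r) hok''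
        have har2 : 0 < ar (p b) (p a) (p x) := hsp''.1.1
        have hfK2 : ({b, a, x} : Finset (Fin N)) ∈ D.K := by
          rw [hK2]
          exact g17_facK b a x l' r' (PT.node w l r)
        have hzs2 : Sup z {b, a, x} := by
          intro v hv
          simp only [Finset.mem_insert, Finset.mem_singleton, not_or] at hv
          exact hsup v hv.2.1 hv.1
        refine g17_core hG1 D.K p z b a x hba hbx hax hfK2 har2 hz0 hz1 hzs2 hzb hza _
          (Or.inr ?_)
        rw [g17_cr_neg]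
        linarith

end Pool.Agent.Lib.MP_9f84a9_co
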