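import Pool.Agent.Lib.MP_9f84a9_co.G.StmG

/-!
# MP_9f84a9_co, piece G18: unit vectors in the plane
-/

set_option autoImplicit false

namespace Pool.Agent.Lib.MP_9f84a9_co

open Finset Filter Topology

private theorem g18_sq (v : E) : ‖v‖ ^ 2 = v 0 ^ 2 + v 1 ^ 2 := by
  rw [EuclideanSpace.norm_sq_eq]
  simp [Fin.sum_univ_two]

private theorem g18_le {v w : E} (h : ¬ 1 < ‖v + w‖) : (v 0 + w 0) ^ 2 + (v 1 + w 1) ^ 2 ≤ 1 := by
  have h1 : ‖v + w‖ ≤ 1 := not_lt.1 h
  have h2 := g18_sq (v + w)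
  have h3 : ‖v + w‖ ^ 2 ≤ 1 := by
    have := norm_nonneg (v + w)
    nlinarith
  rw [h2] at h3
  simpa using h3

private theorem g18_one {v : E} (h : ‖v‖ = 1) : v 0 ^ 2 + v 1 ^ 2 = 1 := by
  rw [← g18_sq, h]
  norm_num

theorem p_G18 : S_G18 := by
  refine ⟨?_, ?_, ?_⟩
  · intro e1 e2 e3 e4 h1 h2 h3 h4
    by_contra hcon
    simp only [not_or, not_lt] at hcon
    obtain ⟨a12, a13, a14, a23, a24, a34⟩ := hcon
    have b12 := g18_le (not_lt.2 a12)
    have b13 := g18_le (not_lt.2 a13)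
    have b14 := g18_le (not_lt.2 a14)
    have b23 := g18_le (not_lt.2 a23)
    have b24 := g18_le (not_lt.2 a24)
    have b34 := g18_le (not_lt.2 a34)
    have c1 := g18_one h1
    have c2 := g18_one h2
    have c3 := g18_one h3
    have c4 := g18_one h4
    have s0 := sq_nonneg (e1 0 + e2 0 + e3 0 + e4 0)
    have s1 := sq_nonneg (e1 1 + e2 1 + e3 1 + e4 1)
    nlinarith
  · intro u e1 e2 e3 hu h1 h2 h3 k1 k2 k3 hsum
    have c1 := g18_one h1
    have c2 := g18_one h2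
    have c3 := g18_one h3
    have s0 : e1 0 + e2 0 + e3 0 = 0 := by
      have := congrArg (fun v : E => v 0) hsum
      simpa using this
    have s1 : e1 1 + e2 1 + e3 1 = 0 := by
      have := congrArg (fun v : E => v 1) hsum
      simpa using this
    unfold cr at k1 k2 k3
    have hU : 0 < u 0 ^ 2 + u 1 ^ 2 := by
      rw [← g18_sq]
      have := norm_pos_iff.2 hu
      positivity
    have hs : (u 0 * e1 1 - u 1 * e1 0) + (u 0 * e2 1 - u 1 * e2 0) + (u 0 * e3 1 - u 1 * e3 0)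
        = 0 := by
      have : (u 0 * e1 1 - u 1 * e1 0) + (u 0 * e2 1 - u 1 * e2 0) + (u 0 * e3 1 - u 1 * e3 0) =
          u 0 * (e1 1 + e2 1 + e3 1) - u 1 * (e1 0 + e2 0 + e3 0) := by ring
      rw [this, s0, s1]
      ring
    have z1 : u 0 * e1 1 - u 1 * e1 0 = 0 := by linarith
    have z2 : u 0 * e2 1 - u 1 * e2 0 = 0 := by linarith
    have z3 : u 0 * e3 1 - u 1 * e3 0 = 0 := by linarith
    have key : ∀ e : E, e 0 ^ 2 + e 1 ^ 2 = 1 → u 0 * e 1 - u 1 * e 0 = 0 →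
        (u 0 * e 0 + u 1 * e 1) ^ 2 = u 0 ^ 2 + u 1 ^ 2 := by
      intro e he hz
      have : (u 0 * e 0 + u 1 * e 1) ^ 2 =
          (u 0 ^ 2 + u 1 ^ 2) * (e 0 ^ 2 + e 1 ^ 2) - (u 0 * e 1 - u 1 * e 0) ^ 2 := by ring
      rw [this, he, hz]
      ring
    have q1 := key e1 c1 z1
    have q2 := key e2 c2 z2
    have q3 := key e3 c3 z3
    have hs2 : (u 0 * e1 0 + u 1 * e1 1) + (u 0 * e2 0 + u 1 * e2 1) + (u 0 * e3 0 + u 1 * e3 1)
        = 0 := by
      have : (u 0 * e1 0 + u 1 * e1 1) + (u 0 * e2 0 + u 1 * e2 1) + (u 0 * e3 0 + u 1 * e3 1) =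
          u 0 * (e1 0 + e2 0 + e3 0) + u 1 * (e1 1 + e2 1 + e3 1) := by ring
      rw [this, s0, s1]
      ring
    generalize u 0 * e1 0 + u 1 * e1 1 = a at *
    generalize u 0 * e2 0 + u 1 * e2 1 = b at *
    generalize u 0 * e3 0 + u 1 * e3 1 = c at *
    generalize u 0 ^ 2 + u 1 ^ 2 = U at *
    have hab : (a - b) * (a + b) = 0 := by nlinarith
    rcases mul_eq_zero.1 hab with h | h
    · have : a = b := by linarith
      subst this
      have : c = -2 * a := by linarith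
      rw [this] at q3
      nlinarith
    · have : c = 0 := by linarith
      rw [this] at q3
      nlinarith
  · intro u hu
    unfold uni
    rw [norm_smul, norm_inv, norm_norm]
    exact inv_mul_cancel₀ (norm_ne_zero_iff.2 hu)

end Pool.Agent.Lib.MP_9f84a9_co
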