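import Pool.Agent.Lib.MP_9f84a9_co.G.StmG

/-!
# MP_9f84a9_co, piece G19: first variation of a sum of distances
-/

set_option autoImplicit false

namespace Pool.Agent.Lib.MP_9f84a9_co

open Finset Filter Topology

private theorem g19_dist (z v y : E) (h : y ≠ z) :
    HasDerivAt (fun ε : ℝ => dist (z + ε • v) y) (- inner ℝ v (uni (y - z))) 0 := by
  have hne : z - y ≠ 0 := sub_ne_zero.mpr h.symm
  have hn : ‖z - y‖ ≠ 0 := norm_ne_zero_iff.mpr hne
  have hw : HasDerivAt (fun ε : ℝ => z + ε • v - y) v 0 := by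
    have h1 : HasDerivAt (fun ε : ℝ => ε • v) ((1 : ℝ) • v) 0 := (hasDerivAt_id (0 : ℝ)).smul_const v
    rw [one_smul] at h1
    exact (h1.const_add z).sub_const y
  have hsq : HasDerivAt (fun ε : ℝ => ‖z + ε • v - y‖ ^ 2) (2 * inner ℝ (z + (0 : ℝ) • v - y) v) 0 :=
    hw.norm_sq
  rw [zero_smul, add_zero] at hsq
  have hne2 : ‖z + (0 : ℝ) • v - y‖ ^ 2 ≠ 0 := by
    rw [zero_smul, add_zero]
    exact pow_ne_zero 2 hn
  have hs := hsq.sqrt hne2
  have hfun : (fun ε : ℝ => Real.sqrt (‖z + ε • v - y‖ ^ 2)) = fun ε : ℝ => dist (z + ε • v) y := by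
    funext ε
    rw [Real.sqrt_sq (norm_nonneg _), dist_eq_norm]
  rw [hfun] at hs
  convert hs using 1
  rw [zero_smul, add_zero, Real.sqrt_sq (norm_nonneg _), uni, inner_smul_right, norm_sub_rev y z]
  rw [real_inner_comm v (z - y), ← neg_sub z y, inner_neg_right]
  field_simp

private theorem g19_sum (z v : E) (ys : List E) (h : ∀ y ∈ ys, y ≠ z) :
    HasDerivAt (fun ε : ℝ => (ys.map fun y => dist (z + ε • v) y).sum)
      (- inner ℝ v (ys.map fun y => uni (y - z)).sum) 0 := by
  induction ys with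
  | nil => simpa using hasDerivAt_const (0 : ℝ) (0 : ℝ)
  | cons y ys ih =>
    have h1 := g19_dist z v y (h y (List.mem_cons_self))
    have h2 := ih (fun y' hy' => h y' (List.mem_cons_of_mem _ hy'))
    have h3 := h1.add h2
    simp only [List.map_cons, List.sum_cons, inner_add_right, neg_add]
    exact h3

theorem p_G19 : S_G19 := by
  intro z v ys c hys hc
  have h1 := g19_sum z v ys hys
  have h0 : HasDerivAt (fun ε : ℝ => c * (ε * ‖v‖)) (c * ‖v‖) 0 := by
    have h2 : HasDerivAt (fun ε : ℝ => ε * ‖v‖) (1 * ‖v‖) 0 := (hasDerivAt_id (0 : ℝ)).mul_const ‖v‖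
    rw [one_mul] at h2
    exact h2.const_mul c
  have h3 := h0.add h1
  have h4 := h3.tendsto_slope_zero_right
  have h5 : c * ‖v‖ + - inner ℝ v (ys.map fun y => uni (y - z)).sum < 0 := by linarith
  have h6 := h4.eventually (gt_mem_nhds h5)
  filter_upwards [h6, self_mem_nhdsWithin] with ε hε hpos
  have hpos' : 0 < ε := hpos
  simp only [Pi.add_apply, zero_add, smul_eq_mul, zero_mul, mul_zero, zero_smul, add_zero] at hε
  have h7 : ε⁻¹ * (c * (ε * ‖v‖) + (ys.map fun y => dist (z + ε • v) y).sum -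
      (ys.map fun y => dist z y).sum) < 0 := hε
  have h8 : c * (ε * ‖v‖) + (ys.map fun y => dist (z + ε • v) y).sum -
      (ys.map fun y => dist z y).sum < 0 := by
    by_contra hcon
    push Not at hcon
    have := mul_nonneg (inv_pos.mpr hpos').le hcon
    linarith
  linarith

end Pool.Agent.Lib.MP_9f84a9_co
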