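import Pool.Agent.Lib.MP_9f84a9_co.G.StmG

/-!
# MP_9f84a9_co, [G2]: paths: appending, sub-paths, comparison with `dK`
-/

set_option autoImplicit false

namespace Pool.Agent.Lib.MP_9f84a9_co

open Finset Filter Topology

theorem g2_nonneg {N : ℕ} {K : Cx N} {c : Pt N → Pt N → ℝ} (hc : IsCost c) {x y : Pt N} {k : ℕ}
    {r : ℝ} (h : Path K c x y k r) : 0 ≤ r := by
  induction h with
  | nil x hx => exact le_rfl
  | cons x y z k r hs hp ih => exact add_nonneg (hc.nonneg x y) ih

theorem g2_append {N : ℕ} {K : Cx N} {c : Pt N → Pt N → ℝ} {x y z : Pt N} {k k' : ℕ} {r r' : ℝ}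
    (h : Path K c x y k r) (h' : Path K c y z k' r') : Path K c x z (k + k') (r + r') := by
  induction h with
  | nil x hx =>
    rw [zero_add, zero_add]
    exact h'
  | cons x y w k r hs hp ih =>
    have h1 := Path.cons x y z (k + k') (r + r') hs (ih h')
    have e1 : k + 1 + k' = k + k' + 1 := by omega
    have e2 : c x y + r + r' = c x y + (r + r') := by ring
    rw [e1, e2]
    exact h1

theorem p_G2 : S_A4 → S_G2 := by
  intro hA4 N K c hc
  refine ⟨fun x y k r h => ⟨g2_nonneg hc h, ?_⟩, fun x y z k k' r r' h h' => g2_append h h', ?_⟩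
  · refine csInf_le ⟨0, ?_⟩ ⟨k, h⟩
    rintro s ⟨k', h'⟩
    exact g2_nonneg hc h'
  · intro u k i j h0 hs hij hjk
    refine ((hA4 N K c hc).1 (u i) (u j) (j - i) _).2 ⟨?_, fun l => u (i + l), ?_, ?_, ?_, ?_⟩
    · rcases Nat.eq_zero_or_pos i with hi | hi
      · rw [hi]
        exact h0
      · have h1 := (hs (i - 1) (by omega)).2.1
        have e : i - 1 + 1 = i := by omega
        rw [e] at h1
        exact h1
    · rfl
    · change u (i + (j - i)) = u j
      congr 1
      omega
    · intro l hl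
      exact hs (i + l) (by omega)
    · rw [Finset.sum_Ico_eq_sum_range]
      rfl

end Pool.Agent.Lib.MP_9f84a9_co
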