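import Pool.Agent.Lib.MP_9f84a9_co.G.StmG

/-!
# MP_9f84a9_co, piece G21: branches and combs
-/

set_option autoImplicit false

namespace Pool.Agent.Lib.MP_9f84a9_co

open Finset Filter Topology

private theorem g21_br_leaf {N : ℕ} (z : Pt N) (v : Fin N) :
    br z (Net.leaf v) = [Net.leaf v] := by
  rw [br]

private theorem g21_br_pos {N : ℕ} (z : Pt N) (l r : Net N) :
    br z (Net.node z l r) = br z l ++ br z r := by
  rw [br, if_pos rfl]

private theorem g21_br_neg {N : ℕ} (z z' : Pt N) (l r : Net N) (h : z' ≠ z) :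
    br z (Net.node z' l r) = [Net.node z' l r] := by
  rw [br, if_neg h]

private theorem g21_1 {N : ℕ} (z : Pt N) (A : Net N) :
    ((br z A).map Net.leaves).flatten = A.leaves := by
  induction A with
  | leaf v => rw [g21_br_leaf]; simp
  | node z' l r ihl ihr =>
    by_cases h : z' = z
    · subst h
      rw [g21_br_pos, List.map_append, List.flatten_append, ihl, ihr]
      rfl
    · rw [g21_br_neg z z' l r h]
      simp

private theorem g21_2 {N : ℕ} (z : Pt N) (A : Net N) :
    ∀ B ∈ br z A, ∀ x ∈ B.nodes, x ∈ A.nodes := by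
  induction A with
  | leaf v =>
    intro B hB x hx
    rw [g21_br_leaf, List.mem_singleton] at hB
    subst hB
    exact hx
  | node z' l r ihl ihr =>
    intro B hB x hx
    by_cases h : z' = z
    · subst h
      rw [g21_br_pos, List.mem_append] at hB
      show x ∈ z' :: (l.nodes ++ r.nodes)
      rcases hB with hB | hB
      · exact List.mem_cons_of_mem _ (List.mem_append_left _ (ihl B hB x hx))
      · exact List.mem_cons_of_mem _ (List.mem_append_right _ (ihr B hB x hx))
    · rw [g21_br_neg z z' l r h, List.mem_singleton] at hB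
      subst hB
      exact hx

private theorem g21_3 {N : ℕ} (z : Pt N) (A : Net N) : br z A ≠ [] := by
  induction A with
  | leaf v => rw [g21_br_leaf]; exact List.cons_ne_nil _ _
  | node z' l r ihl ihr =>
    by_cases h : z' = z
    · subst h
      rw [g21_br_pos]
      intro h0
      exact ihl (List.append_eq_nil_iff.mp h0).1
    · rw [g21_br_neg z z' l r h]
      exact List.cons_ne_nil _ _

private theorem g21_4 {N : ℕ} (z : Pt N) (d : Pt N → Pt N → ℝ) (hd : d z z = 0) (A : Net N) :
    hl d z A = ((br z A).map (hl d z)).sum := by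
  induction A with
  | leaf v => rw [g21_br_leaf]; simp
  | node z' l r ihl ihr =>
    by_cases h : z' = z
    · subst h
      rw [g21_br_pos, List.map_append, List.sum_append, ← ihl, ← ihr]
      show d z' z' + (d z' l.top + d z' r.top + l.len d + r.len d) =
        (d z' l.top + l.len d) + (d z' r.top + r.len d)
      rw [hd]
      ring
    · rw [g21_br_neg z z' l r h]
      simp

private theorem g21_5 {N : ℕ} (z : Pt N) (hz : ∀ v, z ≠ vx v) (A : Net N) :
    ∀ B ∈ br z A, B.top ≠ z := by
  induction A with
  | leaf v =>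
    intro B hB
    rw [g21_br_leaf, List.mem_singleton] at hB
    subst hB
    exact (hz v).symm
  | node z' l r ihl ihr =>
    intro B hB
    by_cases h : z' = z
    · subst h
      rw [g21_br_pos, List.mem_append] at hB
      rcases hB with hB | hB
      · exact ihl B hB
      · exact ihr B hB
    · rw [g21_br_neg z z' l r h, List.mem_singleton] at hB
      subst hB
      exact h

private theorem g21_6 {N : ℕ} (z : Pt N) (T : Net N × Net N) (A : Net N) :
    ∀ C : Net N, Net.Eqv T (A, C) → C.top = z → ∀ B ∈ br z A,
      ∃ C', C'.top = z ∧ Net.Eqv T (B, C') := by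
  induction A with
  | leaf v =>
    intro C hT hC B hB
    rw [g21_br_leaf, List.mem_singleton] at hB
    subst hB
    exact ⟨C, hC, hT⟩
  | node z' l r ihl ihr =>
    intro C hT hC B hB
    by_cases h : z' = z
    · subst h
      rw [g21_br_pos, List.mem_append] at hB
      rcases hB with hB | hB
      · exact ihl (Net.node z' r C) (hT.tail (Net.Mv.lf z' l r C)) rfl B hB
      · exact ihr (Net.node z' l C) (hT.tail (Net.Mv.rt z' l r C)) rfl B hB
    · rw [g21_br_neg z z' l r h, List.mem_singleton] at hB
      subst hB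
      exact ⟨C, hC, hT⟩

private theorem g21_7 {N : ℕ} (z : Pt N) (d : Pt N → Pt N → ℝ) (hd : d z z = 0)
    (Bs : List (Net N)) : ∀ B : Net N, hl d z (comb z B Bs) = ((B :: Bs).map (hl d z)).sum := by
  induction Bs with
  | nil => intro B; simp [comb]
  | cons B' Bs ih =>
    intro B
    have h1 : hl d z (comb z B (B' :: Bs)) = hl d z B + hl d z (comb z B' Bs) := by
      show d z z + (d z B.top + d z (comb z B' Bs).top + B.len d + (comb z B' Bs).len d) =
        (d z B.top + B.len d) + (d z (comb z B' Bs).top + (comb z B' Bs).len d)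
      rw [hd]
      ring
    rw [h1, ih B']
    simp only [List.map_cons, List.sum_cons]

private theorem g21_8 {N : ℕ} (z : Pt N) (Bs : List (Net N)) :
    ∀ B : Net N, (comb z B Bs).leaves = ((B :: Bs).map Net.leaves).flatten ∧
      (∀ x ∈ (comb z B Bs).nodes, x = z ∨ ∃ A ∈ B :: Bs, x ∈ A.nodes) := by
  induction Bs with
  | nil =>
    intro B
    refine ⟨by simp [comb], ?_⟩
    intro x hx
    exact Or.inr ⟨B, List.mem_cons_self, hx⟩
  | cons B' Bs ih =>
    intro B
    obtain ⟨h1, h2⟩ := ih B'
    refine ⟨?_, ?_⟩
    · show B.leaves ++ (comb z B' Bs).leaves = _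
      rw [h1]
      simp only [List.map_cons, List.flatten_cons]
    · intro x hx
      have hx' : x ∈ z :: (B.nodes ++ (comb z B' Bs).nodes) := hx
      rw [List.mem_cons, List.mem_append] at hx'
      rcases hx' with hx' | hx' | hx'
      · exact Or.inl hx'
      · exact Or.inr ⟨B, List.mem_cons_self, hx'⟩
      · rcases h2 x hx' with h | ⟨A, hA, hxA⟩
        · exact Or.inl h
        · exact Or.inr ⟨A, List.mem_cons_of_mem _ hA, hxA⟩

theorem p_G21 : S_G21 := by
  intro N z
  refine ⟨g21_1 z, g21_2 z, fun A => ⟨g21_3 z A, ?_⟩, fun A d hd => g21_4 z d hd A, g21_5 z,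
    fun T A C h1 h2 => g21_6 z T A C h1 h2, fun B Bs d hd => g21_7 z d hd Bs B,
    fun B Bs => g21_8 z Bs B, fun B B' Bs => rfl⟩
  rintro l r rfl
  exact g21_br_pos z l r

end Pool.Agent.Lib.MP_9f84a9_co
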