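import Pool.Agent.Lib.MP_9f84a9_co.G.StmG

/-!
# MP_9f84a9_co, piece G22: small facts about a piece
-/

set_option autoImplicit false

namespace Pool.Agent.Lib.MP_9f84a9_co

open Finset Filter Topology

private theorem g22_fl {N : ℕ} (A : Net N) :
    (∃ v ∈ A.leaves, A.top = vx v) ∨ ∃ z ∈ A.nodes, A.top = z := by
  cases A with
  | leaf v => exact Or.inl ⟨v, by simp [Net.leaves], rfl⟩
  | node z l r => exact Or.inr ⟨z, by simp [Net.nodes], rfl⟩

theorem p_G22 : S_A1 → S_B4 → S_G13 → S_G22 := by
  intro hA1 hB4 hG13 N Cl P q hq hS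
  obtain ⟨-, -, -, -, hA5, -, -, -, -⟩ := hA1 N
  obtain ⟨-, hBv, -⟩ := hB4 N q.D hq.dok
  have hvx : ∀ v ∈ q.D.vl, In q.D.K (vx v) := by
    intro v hv
    obtain ⟨f, hf, hvf⟩ := hBv v hv
    exact (hA5 q.D.K f v hf hvf).1
  have hnd : ∀ T', Net.Eqv q.T T' → ∀ z ∈ T'.1.nodes ++ T'.2.nodes, z ∈ q.nd := by
    intro T' hT' z hz
    exact (((hG13 N q.T T').1 hT').2.2.1.mem_iff).mpr hz
  have hlv : ∀ T', Net.Eqv q.T T' → ∀ v ∈ T'.1.leaves ++ T'.2.leaves, v ∈ q.lv := by
    intro T' hT' z hz
    exact (((hG13 N q.T T').1 hT').2.1.mem_iff).mpr hz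
  have hin : ∀ A : Net N, (∀ v ∈ A.leaves, v ∈ q.lv) → (∀ z ∈ A.nodes, z ∈ q.nd) →
      In q.D.K A.top := by
    intro A h1 h2
    rcases g22_fl A with ⟨v, hv, htop⟩ | ⟨z, hz, htop⟩
    · rw [htop]
      exact hvx v (hq.lvs v (h1 v hv))
    · rw [htop]
      exact hq.nods z (h2 z hz)
  refine ⟨?_, ?_, ?_⟩
  · intro T' hT'
    constructor
    · exact hin T'.1 (fun v hv => hlv T' hT' v (List.mem_append_left _ hv))
        (fun z hz => hnd T' hT' z (List.mem_append_left _ hz))
    · exact hin T'.2 (fun v hv => hlv T' hT' v (List.mem_append_right _ hv))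
        (fun z hz => hnd T' hT' z (List.mem_append_right _ hz))
  · intro hne hone
    have hlen : q.lv.length = q.nd.length + 2 := (hG13 N q.T q.T).2.1
    have hpos : 0 < q.nd.length := List.length_pos_iff.mpr hne
    have hnod : q.lv.Nodup := List.Nodup.of_map _ hS.cls
    have hsub : q.lv ⊆ [q.D.a, q.D.b] := by
      intro v hv
      have h := hq.lvs v hv
      unfold Dsc.vl at h
      rw [hone.1, hone.2] at h
      simpa [PT.vs] using h
    have hle := (hnod.subperm hsub).length_le
    simp only [List.length_cons, List.length_nil] at hle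
    omega
  · intro T' hT' htop
    rcases hT : T' with ⟨A, B⟩
    rw [hT] at htop
    cases A with
    | leaf v =>
      exfalso
      have := hS.le T' hT' v (by rw [hT])
      apply this
      rw [hT]
      exact htop.symm
    | node z l r =>
      cases B with
      | leaf v =>
        exfalso
        have h2 : Net.Eqv q.T (Net.leaf v, Net.node z l r) := by
          rw [hT] at hT'
          exact hT'.tail (Net.Mv.sw _ _)
        exact hS.le _ h2 v rfl htop
      | node z' l' r' =>
        have hz : z = z' := htop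
        subst hz
        refine ⟨z, l, r, l', r', rfl, rfl, ?_⟩
        apply hnd T' hT' z
        rw [hT]
        apply List.mem_append_left
        show z ∈ z :: (l.nodes ++ r.nodes)
        exact List.mem_cons_self

end Pool.Agent.Lib.MP_9f84a9_co
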