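import Pool.Agent.Lib.MP_9f84a9_co.G.StmG

/-!
# MP_9f84a9_co: no edge of the network has length zero
-/

set_option autoImplicit false

namespace Pool.Agent.Lib.MP_9f84a9_co

private theorem g23_perm {α : Type} (B1 B2 B3 B4 : α) (rest : List α) (e : α → E)
    (h : 1 < ‖e B1 + e B2‖ ∨ 1 < ‖e B1 + e B3‖ ∨ 1 < ‖e B1 + e B4‖ ∨ 1 < ‖e B2 + e B3‖ ∨
      1 < ‖e B2 + e B4‖ ∨ 1 < ‖e B3 + e B4‖) :
    ∃ X Y Z W : α, (B1 :: B2 :: B3 :: B4 :: rest).Perm (X :: Y :: Z :: W :: rest) ∧
      1 < ‖e X + e Y‖ := by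
  rcases h with h | h | h | h | h | h
  · exact ⟨B1, B2, B3, B4, List.Perm.refl _, h⟩
  · exact ⟨B1, B3, B2, B4, (List.Perm.swap _ _ _).cons _, h⟩
  · exact ⟨B1, B4, B2, B3, (List.perm_middle (l₁ := [B2, B3])).cons _, h⟩
  · exact ⟨B2, B3, B1, B4, (List.perm_middle (l₁ := [B2, B3])).symm, h⟩
  · exact ⟨B2, B4, B1, B3, (List.Perm.swap _ _ _).trans
      ((List.perm_middle (l₁ := [B1, B3])).cons _), h⟩
  · exact ⟨B3, B4, B1, B2, (List.perm_append_comm (l₁ := [B1, B2]) (l₂ := [B3, B4])).append_right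
      rest, h⟩

private theorem g23_four {α : Type} (l1 l2 l3 l4 : List α) (h1 : l1 ≠ []) (h2 : l2 ≠ [])
    (h3 : l3 ≠ []) (h4 : l4 ≠ []) : ∃ B1 B2 B3 B4 rest,
      (l1 ++ l2) ++ (l3 ++ l4) = B1 :: B2 :: B3 :: B4 :: rest := by
  have hlen : 4 ≤ ((l1 ++ l2) ++ (l3 ++ l4)).length := by
    have := List.length_pos_iff.2 h1
    have := List.length_pos_iff.2 h2
    have := List.length_pos_iff.2 h3
    have := List.length_pos_iff.2 h4
    simp only [List.length_append]
    omega
  match h : (l1 ++ l2) ++ (l3 ++ l4) with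
  | [] => rw [h] at hlen; simp at hlen
  | [_] => rw [h] at hlen; simp at hlen
  | [_, _] => rw [h] at hlen; simp at hlen
  | [_, _, _] => rw [h] at hlen; simp at hlen
  | B1 :: B2 :: B3 :: B4 :: rest => exact ⟨B1, B2, B3, B4, rest, rfl⟩

theorem p_G23 : S_A1 → S_A2 → S_B5 → S_SL → S_sep0 → S_G13 → S_G15 → S_G18 → S_G20 → S_G21 →
    S_G22 → S_G23 := by
  intro hA1 hA2 hB5 hSL hsep h13 h15 h18 h20 h21 h22 N Cl P R1 S hctx q hq hs T' hT' htop
  have hok := hctx.opt.mem.ok q hq
  obtain ⟨ht, hone, hnode⟩ := h22 N Cl P q hok hs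
  obtain ⟨z, l, r, l', r', e1, e2, hz⟩ := hnode T' hT' htop
  have hnv := hs.nv z hz
  have hno : ¬ q.D.One := hone (List.ne_nil_of_mem hz)
  have hzK : In q.D.K z := hok.nods z hz
  have hcost := (hA1 N).1 q.p
  obtain ⟨dnn, dself, dsymm, dtri, dstp⟩ := hA2 N q.D.K (ce q.p) hcost (hB5 N q.D hok.dok)
  have dzz : q.d z z = 0 := dself z hzK
  obtain ⟨b1, b2, b3, b4, b5, b6, b7, b8, b9⟩ := h21 N z
  obtain ⟨T1, T2⟩ := T'
  simp only at e1 e2 htop
  -- the branches
  have hbr1 := (b3 T1).2 l r e1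
  have hbr2 := (b3 T2).2 l' r' e2
  have t1 : T1.top = z := by rw [e1]; rfl
  have t2 : T2.top = z := by rw [e2]; rfl
  have hEq : ∀ B ∈ br z T1 ++ br z T2, ∃ C', C'.top = z ∧ Net.Eqv q.T (B, C') := by
    intro B hB
    rcases List.mem_append.1 hB with hB | hB
    · exact b6 q.T T1 T2 hT' t2 B hB
    · exact b6 q.T T2 T1 (hT'.tail (Net.Mv.sw _ _)) t1 B hB
  have hne : ∀ B ∈ br z T1 ++ br z T2, B.top ≠ z := by
    intro B hB
    rcases List.mem_append.1 hB with hB | hB
    · exact b5 hnv T1 B hB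
    · exact b5 hnv T2 B hB
  have hK : ∀ B ∈ br z T1 ++ br z T2, In q.D.K B.top := by
    intro B hB
    obtain ⟨C', -, h⟩ := hEq B hB
    exact (ht _ h).1
  have hstrict : ∀ B ∈ br z T1 ++ br z T2, ∀ w ∈ q.D.vl, vx w ≠ z → vx w ≠ B.top →
      dK q.D.K (ce q.p) z B.top < dK q.D.K (ce q.p) z (vx w) + dK q.D.K (ce q.p) (vx w) B.top := by
    intro B hB w hw h1 h2
    obtain ⟨C', hC, h⟩ := hEq B hB
    have := hs.split _ h w hw h2 (by rw [hC]; exact h1)
    simp only [hC] at this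
    have e : dK q.D.K (ce q.p) B.top z < dK q.D.K (ce q.p) B.top (vx w) +
        dK q.D.K (ce q.p) (vx w) z := this
    rw [dsymm z B.top, dsymm z (vx w), dsymm (vx w) B.top, add_comm]
    exact e
  have hunit : ∀ B ∈ br z T1 ++ br z T2, ‖uni (pos q.p B.top - pos q.p z)‖ = 1 := by
    intro B hB
    apply h18.2.2
    intro h0
    have hd : dK q.D.K (ce q.p) z B.top = dist (pos q.p z) (pos q.p B.top) := by
      rcases hSL N q.D q.p hok.dok hs.spos z B.top hzK (hK B hB) with ⟨v, hv, hv1, hv2, hle⟩ | h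
      · exact absurd hle (not_le.2 (hstrict B hB v hv hv1 hv2))
      · exact h
    rw [sub_eq_zero] at h0
    rw [h0, dist_self] at hd
    rcases hsep N q.D q.p hok.dok hs.spos with h | h
    · exact hne B hB (h z B.top hzK (hK B hB) hd).symm
    · exact hno h
  -- four branches
  obtain ⟨B1, B2, B3, B4, rest, hBs⟩ := g23_four (br z l) (br z r) (br z l') (br z r')
    (b3 l).1 (b3 r).1 (b3 l').1 (b3 r').1
  rw [← hbr1, ← hbr2] at hBs
  obtain ⟨X, Y, Z, W, hperm, hXY⟩ := g23_perm B1 B2 B3 B4 rest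
    (fun B => uni (pos q.p B.top - pos q.p z)) (h18.1 _ _ _ _
      (hunit B1 (by rw [hBs]; simp)) (hunit B2 (by rw [hBs]; simp))
      (hunit B3 (by rw [hBs]; simp)) (hunit B4 (by rw [hBs]; simp)))
  rw [← hBs] at hperm
  have hmem : ∀ B, B ∈ X :: Y :: Z :: W :: rest ↔ B ∈ br z T1 ++ br z T2 :=
    fun B => hperm.symm.mem_iff
  have hX := (hmem X).1 (by simp)
  have hY := (hmem Y).1 (by simp)
  -- shortening
  obtain ⟨z', hz'K, hlt⟩ := h20 N q.D q.p z [X.top, Y.top] 1 hok.dok hs.spos hno hzK hnv zero_le_one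
    (by
      intro y hy
      rcases List.mem_cons.1 hy with rfl | hy
      · exact ⟨hK X hX, hne X hX, fun w hw h1 h2 => hstrict X hX w hw h1 h2⟩
      · rw [List.mem_singleton] at hy
        subst hy
        exact ⟨hK Y hY, hne Y hY, fun w hw h1 h2 => hstrict Y hY w hw h1 h2⟩)
    (by
      simp only [List.map_cons, List.map_nil, List.sum_cons, List.sum_nil, add_zero]
      nlinarith)
  simp only [List.map_cons, List.map_nil, List.sum_cons, List.sum_nil, add_zero, one_mul] at hlt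
  -- the new network
  obtain ⟨c1, c2, c3, c4⟩ := (h13 N q.T (T1, T2)).1 hT'
  have hnodes : ∀ B ∈ br z T1 ++ br z T2, ∀ x ∈ B.nodes, In q.D.K x := by
    intro B hB x hx
    apply hok.nods
    unfold Piece.nd
    rw [c3.mem_iff]
    rcases List.mem_append.1 hB with hB | hB
    · exact List.mem_append.2 (Or.inl (b2 T1 B hB x hx))
    · exact List.mem_append.2 (Or.inr (b2 T2 B hB x hx))
  have hmain := h15 N Cl P R1 S hctx.opt q hq (Net.node z' X Y, comb z Z (W :: rest)) (by
      have hl : (Net.node z' X Y).leaves ++ (comb z Z (W :: rest)).leaves =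
          ((X :: Y :: Z :: W :: rest).map Net.leaves).flatten := by
        rw [(b8 Z (W :: rest)).1]
        simp only [Net.leaves, List.map_cons, List.flatten_cons, List.append_assoc]
      show ((Net.node z' X Y).leaves ++ (comb z Z (W :: rest)).leaves).Perm q.lv
      rw [hl]
      refine ((hperm.symm.map Net.leaves).flatten).trans ?_
      rw [List.map_append, List.flatten_append, b1, b1]
      exact c2.symm) (by
      intro x hx
      rcases List.mem_append.1 hx with hx | hx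
      · simp only [Net.nodes, List.mem_cons, List.mem_append] at hx
        rcases hx with rfl | hx | hx
        · exact hz'K
        · exact hnodes X hX x hx
        · exact hnodes Y hY x hx
      · rcases (b8 Z (W :: rest)).2 x hx with rfl | ⟨A, hA, hx⟩
        · exact hzK
        · exact hnodes A ((hmem A).1 (List.mem_cons_of_mem _ (List.mem_cons_of_mem _ hA))) x hx)
  rw [c4 q.d (fun x y => dsymm x y)] at hmain
  have hc7 := b7 Z (W :: rest) q.d dzz
  have hc9 := b9 Z W rest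
  have hsum : hl q.d z T1 + hl q.d z T2 = ((X :: Y :: Z :: W :: rest).map (hl q.d z)).sum := by
    rw [b4 T1 q.d dzz, b4 T2 q.d dzz, ← List.sum_append, ← List.map_append]
    exact (hperm.map _).sum_eq
  unfold hl at hc7 hsum
  rw [hc9, dzz, zero_add] at hc7
  rw [t1, t2, dzz, zero_add, zero_add] at hsum
  simp only [List.map_cons, List.sum_cons] at hsum hc7
  have e3 : Net.tlen q.d (Net.node z' X Y, comb z Z (W :: rest)) =
      q.d z' (comb z Z (W :: rest)).top + (q.d z' X.top + q.d z' Y.top + X.len q.d + Y.len q.d) +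
        (comb z Z (W :: rest)).len q.d := rfl
  have e4 : Net.tlen q.d (T1, T2) = q.d T1.top T2.top + T1.len q.d + T2.len q.d := rfl
  rw [e3, e4, hc9, t1, t2, dzz] at hmain
  have hd1 : q.d z' z = q.d z z' := dsymm z' z
  have hlt' : q.d z z' + (q.d z' X.top + q.d z' Y.top) < q.d z X.top + q.d z Y.top := hlt
  linarith

end Pool.Agent.Lib.MP_9f84a9_co
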