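import Pool.Agent.Lib.MP_9f84a9_co.G.StmG

/-!
# MP_9f84a9_co, piece G24: nodes are inner points.
-/

set_option autoImplicit false

namespace Pool.Agent.Lib.MP_9f84a9_co

open Finset Filter Topology

private theorem g24_arc (x y z : E) : ar x y z = ar z x y := by
  unfold ar
  ring

private theorem g24_spos {N : ℕ} (p : Fin N → E) (D D' : Dsc N) (h : Dsc.Eqv D D') :
    D.SPos p → D'.SPos p := by
  unfold Dsc.Eqv at h
  induction h with
  | refl => exact id
  | tail _ hm ih =>
    intro h0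
    have h1 := ih h0
    cases hm with
    | sw a b P R => exact ⟨h1.2, h1.1⟩
    | lf a b w l r R =>
      obtain ⟨⟨h2, h3, h4⟩, h5⟩ := h1
      refine ⟨h3, ?_, h4, h5⟩
      change 0 < ar (p a) (p b) (p w) at h2
      rwa [g24_arc] at h2
    | rt a b w l r R =>
      obtain ⟨⟨h2, h3, h4⟩, h5⟩ := h1
      refine ⟨h4, ?_, h5, h3⟩
      change 0 < ar (p a) (p b) (p w) at h2
      rwa [g24_arc, g24_arc] at h2

private theorem g24_uni (u v : E) (h : 0 ≤ cr u v) : 0 ≤ cr u (uni v) := by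
  have e : cr u (uni v) = ‖v‖⁻¹ * cr u v := by
    unfold cr uni
    simp only [PiLp.smul_apply, smul_eq_mul]
    ring
  rw [e]
  positivity

theorem p_G24 : S_A1 → S_A2 → S_B5 → S_SL → S_sep0 → S_G4 → S_G13 → S_G15 → S_G16 → S_G18 → S_G20 →
    S_G22 → S_G23 → S_G24 := by
  intro hA1 hA2 hB5 hSL hsep hG4 hG13 hG15 hG16 hG18 hG20 hG22 hG23 N Cl P R1 S hC q hq hS z hz
  have hok : q.ok Cl P := hC.opt.mem.ok q hq
  have hDok := hok.dok
  have hsp := hS.spos
  have hnv := hS.nv z hz
  have hzK := hok.nods z hz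
  obtain ⟨g1, g2, -⟩ := hG22 N Cl P q hok hS
  have hone : ¬ q.D.One := g2 (List.ne_nil_of_mem hz)
  rcases hG4 N q.D q.p z hDok hsp hone hzK hnv with h1 | ⟨a, b, w, l, r, R, hE, ha, hb, hab⟩
  · exact ⟨hzK, Or.inl h1⟩
  cases R with
  | node x l' r' =>
    exact ⟨hzK, Or.inr ⟨_, hE, by simp, by simp, ha, hb, hab⟩⟩
  | nil =>
    exfalso
    obtain ⟨l1, r1, B, hT⟩ := (hG13 N q.T q.T).2.2.1 z hz
    have hT2 : Net.Eqv q.T (Net.node z r1 B, l1) := (hT.tail (Net.Mv.lf z l1 r1 B)).tail (Net.Mv.sw _ _)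
    have hT3 : Net.Eqv q.T (Net.node z l1 B, r1) := (hT.tail (Net.Mv.rt z l1 r1 B)).tail (Net.Mv.sw _ _)
    have hcn := hB5 N q.D hDok
    have hcost := (hA1 N).1 q.p
    obtain ⟨-, -, hsymm, -, -⟩ := hA2 N q.D.K (ce q.p) hcost hcn
    have key : ∀ l2 r2 C : Net N, Net.Eqv q.T (Net.node z l2 r2, C) →
        (In q.D.K C.top ∧ C.top ≠ z ∧ ∀ w ∈ q.D.vl, vx w ≠ z → vx w ≠ C.top →
          dK q.D.K (ce q.p) z C.top < dK q.D.K (ce q.p) z (vx w) + dK q.D.K (ce q.p) (vx w) C.top) ∧
        ‖uni (pos q.p C.top - pos q.p z)‖ = 1 ∧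
        0 ≤ cr (q.p b - q.p a) (uni (pos q.p C.top - pos q.p z)) := by
      intro l2 r2 C hE2
      have k1 : In q.D.K C.top := (g1 _ hE2).2
      have k2 : C.top ≠ z := fun h => hG23 N Cl P R1 S hC q hq hS _ hE2 h.symm
      have k3 : ∀ w ∈ q.D.vl, vx w ≠ z → vx w ≠ C.top →
          dK q.D.K (ce q.p) z C.top < dK q.D.K (ce q.p) z (vx w) + dK q.D.K (ce q.p) (vx w) C.top :=
        fun w hw h1 h2 => hS.split _ hE2 w hw h1 h2
      have k4 : dK q.D.K (ce q.p) z C.top = dist (pos q.p z) (pos q.p C.top) := by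
        rcases hSL N q.D q.p hDok hsp z C.top hzK k1 with ⟨v, hv, hv1, hv2, hv3⟩ | h
        · exact absurd (k3 v hv hv1 hv2) (not_lt.mpr hv3)
        · exact h
      have k5 : pos q.p C.top - pos q.p z ≠ 0 := by
        intro h
        rcases hsep N q.D q.p hDok hsp with h2 | h2
        · apply k2
          symm
          apply h2 z C.top hzK k1
          rw [k4, sub_eq_zero.mp h, dist_self]
        · exact hone h2
      have k6 := hG16 N q.D q.p a b w l r z C.top hDok hsp hE hzK ha hb hab k1 k4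
      exact ⟨⟨k1, k2, k3⟩, hG18.2.2 _ k5, g24_uni _ _ k6⟩
    obtain ⟨c1, n1, s1⟩ := key l1 r1 B hT
    obtain ⟨c2, n2, s2⟩ := key r1 B l1 hT2
    obtain ⟨c3, n3, s3⟩ := key l1 B r1 hT3
    have hpab : q.p b - q.p a ≠ 0 := by
      intro h
      have hD' := (g24_spos q.p _ _ hE hsp).1.1
      change 0 < ar (q.p a) (q.p b) (q.p w) at hD'
      rw [sub_eq_zero.mp h] at hD'
      unfold ar at hD'
      simp at hD'
    have hne := hG18.2.1 _ _ _ _ hpab n1 n2 n3 s1 s2 s3
    obtain ⟨z', hz', hlt⟩ := hG20 N q.D q.p z [B.top, l1.top, r1.top] 0 hDok hsp hone hzK hnv le_rfl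
      (by
        intro y hy
        simp only [List.mem_cons, List.not_mem_nil, or_false] at hy
        rcases hy with rfl | rfl | rfl
        · exact c1
        · exact c2
        · exact c3)
      (by
        rw [zero_mul]
        apply pow_pos
        rw [norm_pos_iff]
        simp only [List.map_cons, List.map_nil, List.sum_cons, List.sum_nil, add_zero]
        rw [← add_assoc]
        exact hne)
    obtain ⟨-, e1, e2, e3⟩ := (hG13 N q.T (Net.node z l1 r1, B)).1 hT
    have hle := hG15 N Cl P R1 S hC.opt q hq (Net.node z' l1 r1, B) e1.symm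
      (by
        intro x hx
        have hx2 : x = z' ∨ x ∈ (Net.node z l1 r1).nodes ++ B.nodes := by
          simp only [Net.nodes, List.mem_append, List.mem_cons] at hx ⊢
          tauto
        rcases hx2 with rfl | hx2
        · exact hz'
        · exact hok.nods x (e2.symm.subset hx2))
    rw [e3 q.d hsymm] at hle
    have t1 : Net.tlen q.d (Net.node z l1 r1, B)
        = q.d z B.top + (q.d z l1.top + q.d z r1.top + l1.len q.d + r1.len q.d) + B.len q.d := rfl
    have t2 : Net.tlen q.d (Net.node z' l1 r1, B)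
        = q.d z' B.top + (q.d z' l1.top + q.d z' r1.top + l1.len q.d + r1.len q.d) + B.len q.d := rfl
    rw [t1, t2] at hle
    simp only [List.map_cons, List.map_nil, List.sum_cons, List.sum_nil, add_zero, zero_mul,
      zero_add] at hlt
    change q.d z' B.top + (q.d z' l1.top + q.d z' r1.top)
      < q.d z B.top + (q.d z l1.top + q.d z r1.top) at hlt
    linarith

end Pool.Agent.Lib.MP_9f84a9_co
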