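import Pool.Agent.Lib.MP_9f84a9_co.G.StmG

/-!
# MP_9f84a9_co: assembly of section 4
-/

set_option autoImplicit false

namespace Pool.Agent.Lib.MP_9f84a9_co

theorem p_G25 : S_SL → S_G22 → S_G23 → S_G24 → S_surg → S_geo := by
  intro hSL h22 h23 h24 hsurg N Cl P R1 S hctx q hq
  have hs := (hsurg N Cl P R1 S hctx).1 q hq
  have hok := hctx.opt.mem.ok q hq
  obtain ⟨ht, -, -⟩ := h22 N Cl P q hok hs
  refine ⟨?_, ?_, ?_⟩
  · intro T' hT'
    obtain ⟨h1, h2⟩ := ht T' hT'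
    rcases hSL N q.D q.p hok.dok hs.spos _ _ h1 h2 with ⟨v, hv, hv1, hv2, hle⟩ | h
    · exact absurd hle (not_le.2 (hs.split T' hT' v hv hv1 hv2))
    · exact h
  · exact h23 N Cl P R1 S hctx q hq hs
  · exact h24 N Cl P R1 S hctx q hq hs

end Pool.Agent.Lib.MP_9f84a9_co
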