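import Pool.Agent.Lib.MP_9f84a9_co.G.StmG

set_option autoImplicit false

namespace Pool.Agent.Lib.MP_9f84a9_co

open Finset

private theorem g3_one {N : ℕ} (hB1 : S_B1) (hB2 : S_B2) (D : Dsc N) (p : Fin N → E) (hok : D.ok)
    (hsp : D.SPos p) (hno : ¬ D.One) (f : Finset (Fin N)) (hf : f ∈ D.K) (x : Fin N) (hx : x ∈ f)
    (y : Fin N) (hy : y ∈ f) (hxy : x ≠ y) :
    ∃ (a b w : Fin N) (l r R : PT N), Dsc.Eqv D ⟨a, b, PT.node w l r, R⟩ ∧ f = {a, b, w} ∧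
        a ≠ b ∧ a ≠ w ∧ b ≠ w ∧ 0 < ar (p a) (p b) (p w) ∧
        ((a = x ∧ b = y) ∨ (a = y ∧ b = x)) := by
  obtain ⟨D', w, l, r, he, hP, hfe, hab⟩ := (hB2 N D hok f hf x hx y hy hxy).2 hno
  obtain ⟨a, b, P, R⟩ := D'
  simp only at hP hfe hab
  subst hP
  obtain ⟨-, hok', -, -, hpp⟩ := hB1 N D _ he
  have ho := hok'.1 hok
  have hs := ((hpp p).2.1).1 hsp
  have hnd : (a :: b :: ((PT.node w l r).vs ++ R.vs)).Nodup := ho
  simp only [PT.vs, List.cons_append, List.nodup_cons, List.mem_cons, not_or] at hnd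
  refine ⟨a, b, w, l, r, R, he, hfe, hnd.1.1, hnd.1.2.1, hnd.2.1.1, hs.1.1, hab⟩

theorem p_G3 : S_B1 → S_B2 → S_B3 → S_G3 := by
  intro hB1 hB2 hB3 N D p hok hsp hno
  refine ⟨fun f hf x hx y hy hxy => g3_one hB1 hB2 D p hok hsp hno f hf x hx y hy hxy, ?_⟩
  intro f hf f' hf' hff x hx y hy hxy hx' hy'
  obtain ⟨a, b, w, l, r, R, he, hfe, h1, h2, h3, h4, hab⟩ :=
    g3_one hB1 hB2 D p hok hsp hno f hf x hx y hy hxy
  obtain ⟨-, hok', hK, -, hpp⟩ := hB1 N D _ he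
  have ho := hok'.1 hok
  have hs := ((hpp p).2.1).1 hsp
  have ha' : a ∈ f' := by
    rcases hab with ⟨rfl, rfl⟩ | ⟨rfl, rfl⟩
    · exact hx'
    · exact hy'
  have hb' : b ∈ f' := by
    rcases hab with ⟨rfl, rfl⟩ | ⟨rfl, rfl⟩
    · exact hy'
    · exact hx'
  rw [hK] at hf'
  rcases hB3 N _ ho f' hf' ha' hb' with ⟨hn, -, -⟩ | ⟨w', l', r', hP, hfe'⟩ | ⟨w', l', r', hP, hfe'⟩
  · exact absurd hn (by simp)
  · simp only [PT.node.injEq] at hP
    obtain ⟨rfl, -, -⟩ := hP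
    exact absurd (hfe.trans hfe'.symm) hff
  · simp only at hP hfe'
    subst hP
    have hnd : (a :: b :: ((PT.node w l r).vs ++ (PT.node w' l' r').vs)).Nodup := ho
    have e1 : a ≠ w' := by
      rintro rfl
      exact (List.nodup_cons.1 hnd).1 (by simp [PT.vs])
    have e2 : b ≠ w' := by
      rintro rfl
      exact (List.nodup_cons.1 (List.nodup_cons.1 hnd).2).1 (by simp [PT.vs])
    have e3 : w ≠ w' := by
      rintro rfl
      have h5 := (List.nodup_cons.1 (List.nodup_cons.1 hnd).2).2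
      simp only [PT.vs, List.cons_append, List.nodup_cons] at h5
      exact h5.1 (by simp)
    exact ⟨a, b, w, w', l, r, l', r', he, hfe, hfe', h1, h2, h3, e1, e2, e3, h4, hs.2.1, hab⟩

end Pool.Agent.Lib.MP_9f84a9_co
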