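import Pool.Agent.Lib.MP_9f84a9_co.G.StmG

/-!
# MP_9f84a9_co, [G4]: a point of the disc which is not a vertex is an inner point or on a boundary edge
-/

set_option autoImplicit false

namespace Pool.Agent.Lib.MP_9f84a9_co

open Finset Filter Topology

theorem g4_vx {N : ℕ} {z : Pt N} {x y : Fin N} (hxy : x ≠ y) (hs : Sup z {x, y})
    (h1 : ∑ v, z v = 1) : z x + z y = 1 ∧ (z x = 0 → z = vx y) ∧ (z y = 0 → z = vx x) := by
  have h2 : z x + z y = 1 := by
    rw [← h1, ← Finset.sum_pair hxy]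
    exact Finset.sum_subset (Finset.subset_univ _) fun v _ hv => hs v hv
  refine ⟨h2, fun h0 => ?_, fun h0 => ?_⟩
  · funext v
    by_cases hv : v = y
    · rw [hv]
      unfold vx
      rw [Pi.single_eq_same]
      linarith
    · unfold vx
      rw [Pi.single_eq_of_ne hv]
      by_cases hv' : v = x
      · rw [hv', h0]
      · exact hs v (by simp [hv, hv'])
  · funext v
    by_cases hv : v = x
    · rw [hv]
      unfold vx
      rw [Pi.single_eq_same]
      linarith
    · unfold vx
      rw [Pi.single_eq_of_ne hv]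
      by_cases hv' : v = y
      · rw [hv', h0]
      · exact hs v (by simp [hv, hv'])

theorem p_G4 : S_B4 → S_G3 → S_G4 := by
  intro hB4 hG3 N D p z hok hsp hone hz hv
  obtain ⟨hnn, hsum, f, hf, hsup⟩ := hz
  have hcard : f.card = 3 := by
    rcases (hB4 N D hok).2.2.1 f hf with h | ⟨h1, h2, -⟩
    · exact h
    · exact absurd ⟨h1, h2⟩ hone
  by_cases hall : ∀ v ∈ f, 0 < z v
  · exact Or.inl ⟨f, hf, hcard, hall⟩
  · right
    push Not at hall
    obtain ⟨w0, hw0, hz0⟩ := hall
    have hz0' : z w0 = 0 := le_antisymm hz0 (hnn w0)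
    have h2 : (f.erase w0).card = 2 := by rw [Finset.card_erase_of_mem hw0, hcard]
    obtain ⟨x, y, hxy, he⟩ := Finset.card_eq_two.1 h2
    have hx : x ∈ f := Finset.mem_of_mem_erase (by rw [he]; exact Finset.mem_insert_self _ _)
    have hy : y ∈ f := Finset.mem_of_mem_erase
      (by rw [he]; exact Finset.mem_insert_of_mem (Finset.mem_singleton_self _))
    have hs2 : Sup z {x, y} := by
      intro v hv2
      by_cases hvf : v ∈ f
      · by_cases hvw : v = w0
        · rw [hvw, hz0']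
        · exact absurd (he ▸ Finset.mem_erase.2 ⟨hvw, hvf⟩) hv2
      · exact hsup v hvf
    obtain ⟨h3, h4, h5⟩ := g4_vx hxy hs2 hsum
    have hx0 : 0 < z x := lt_of_le_of_ne (hnn x) fun h => hv y (h4 h.symm)
    have hy0 : 0 < z y := lt_of_le_of_ne (hnn y) fun h => hv x (h5 h.symm)
    obtain ⟨a, b, w, l, r, R, h6, -, -, -, -, -, h7⟩ :=
      (hG3 N D p hok hsp hone).1 f hf x hx y hy hxy
    refine ⟨a, b, w, l, r, R, h6, ?_⟩
    rcases h7 with ⟨rfl, rfl⟩ | ⟨rfl, rfl⟩
    · exact ⟨hx0, hy0, h3⟩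
    · exact ⟨hy0, hx0, by rw [add_comm]; exact h3⟩

end Pool.Agent.Lib.MP_9f84a9_co
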