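import Pool.Agent.Lib.MP_9f84a9_co.G.StmG

/-!
Piece G5 (MP_9f84a9): crossing a line at a point where the broken line is shortest.
-/

set_option autoImplicit false

namespace Pool.Agent.Lib.MP_9f84a9_co

open Finset Filter Topology

private theorem g5_cvx (A m c e : E) (k : ℝ) (hk0 : 0 ≤ k) (hk1 : k ≤ 1)
    (he : e = (1 - k) • m + k • c) : dist A e ≤ (1 - k) * dist A m + k * dist A c := by
  rw [dist_comm A e, dist_comm A m, dist_comm A c, dist_eq_norm, dist_eq_norm, dist_eq_norm]
  have h1 : e - A = (1 - k) • (m - A) + k • (c - A) := by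
    rw [he, smul_sub, smul_sub, sub_smul, sub_smul, one_smul, one_smul]
    abel
  rw [h1]
  refine (norm_add_le _ _).trans ?_
  rw [norm_smul, norm_smul, Real.norm_of_nonneg hk0, Real.norm_of_nonneg (by linarith : 0 ≤ 1 - k)]

private theorem g5_on (a b c : E) (hab : a ≠ b) (h : ar a b c = 0) :
    ∃ s : ℝ, c = (1 - s) • a + s • b := by
  have hn : (b 0 - a 0) ^ 2 + (b 1 - a 1) ^ 2 ≠ 0 := by
    intro h0
    apply hab
    have h1 : (b 0 - a 0) ^ 2 = 0 := by nlinarith [sq_nonneg (b 0 - a 0), sq_nonneg (b 1 - a 1)]
    have h2 : (b 1 - a 1) ^ 2 = 0 := by nlinarith [sq_nonneg (b 0 - a 0), sq_nonneg (b 1 - a 1)]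
    ext i
    fin_cases i
    · have := pow_eq_zero_iff (two_ne_zero) |>.1 h1
      show a 0 = b 0
      linarith
    · have := pow_eq_zero_iff (two_ne_zero) |>.1 h2
      show a 1 = b 1
      linarith
  set n := (b 0 - a 0) ^ 2 + (b 1 - a 1) ^ 2 with hnd
  refine ⟨((b 0 - a 0) * (c 0 - a 0) + (b 1 - a 1) * (c 1 - a 1)) / n, ?_⟩
  unfold ar at h
  ext i
  fin_cases i
  · show c 0 = (1 - _) * a 0 + _ * b 0
    have : c 0 - a 0 = ((b 0 - a 0) * (c 0 - a 0) + (b 1 - a 1) * (c 1 - a 1)) / n * (b 0 - a 0) := by
      rw [div_mul_eq_mul_div, eq_div_iff hn, hnd]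
      linear_combination (-(b 1 - a 1)) * h
    linear_combination this
  · show c 1 = (1 - _) * a 1 + _ * b 1
    have : c 1 - a 1 = ((b 0 - a 0) * (c 0 - a 0) + (b 1 - a 1) * (c 1 - a 1)) / n * (b 1 - a 1) := by
      rw [div_mul_eq_mul_div, eq_div_iff hn, hnd]
      linear_combination (b 0 - a 0) * h
    linear_combination this

theorem p_G5 : S_G5 := by
  intro a b A B m t ht0 ht1 hm hA hB hmin
  have hab : a ≠ b := by
    intro h
    rw [h] at hA
    unfold ar at hA
    simp at hA
  set P := ar a b A with hP
  set Q := ar a b B with hQ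
  have hPQ : 0 < P - Q := by linarith
  set lam := P / (P - Q) with hlam
  have hl0 : 0 ≤ lam := by positivity
  have hl1 : lam ≤ 1 := by
    rw [hlam, div_le_one hPQ]; linarith
  set c : E := AffineMap.lineMap A B lam with hc
  have hcw : Wbtw ℝ A c B := ⟨lam, ⟨hl0, hl1⟩, rfl⟩
  have hcd : dist A c + dist c B = dist A B := hcw.dist_add_dist
  have hc' : c = (1 - lam) • A + lam • B := by
    rw [hc, AffineMap.lineMap_apply_module]
  have hc0 : ar a b c = 0 := by
    have h1 : ar a b c = (1 - lam) * P + lam * Q := by
      rw [hc', hP, hQ]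
      unfold ar
      simp only [PiLp.add_apply, PiLp.smul_apply, smul_eq_mul]
      ring
    rw [h1, hlam]
    field_simp
    ring
  obtain ⟨s0, hs0⟩ := g5_on a b c hab hc0
  have hG : dist A m + dist m B ≤ dist A c + dist c B := by
    rcases le_or_gt 0 s0 with h0 | h0
    · rcases le_or_gt s0 1 with h1 | h1
      · have := hmin s0 h0 h1
        rwa [← hs0] at this
      · -- s0 > 1
        have hst : 0 < s0 - t := by linarith
        set k := (1 - t) / (s0 - t) with hk
        have hk0 : 0 < k := by
          rw [hk]; exact div_pos (by linarith) hst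
        have hk1 : k ≤ 1 := by
          rw [hk, div_le_one hst]; linarith
        have hb : b = (1 - k) • m + k • c := by
          have e1 : (1 - k) * (1 - t) + k * (1 - s0) = 0 := by
            rw [hk]; field_simp; ring
          have e2 : (1 - k) * t + k * s0 = 1 := by
            rw [hk]; field_simp; ring
          rw [hm, hs0, smul_add, smul_add, smul_smul, smul_smul, smul_smul, smul_smul,
            show ((1 - k) * (1 - t)) • a + ((1 - k) * t) • b + ((k * (1 - s0)) • a + (k * s0) • b)
              = ((1 - k) * (1 - t) + k * (1 - s0)) • a + ((1 - k) * t + k * s0) • b by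
              rw [add_smul, add_smul]; abel, e1, e2]
          simp
        have h2 := hmin 1 zero_le_one le_rfl
        have h3 : (1 - (1 : ℝ)) • a + (1 : ℝ) • b = b := by simp
        rw [h3] at h2
        have h4 := g5_cvx A m c b k hk0.le hk1 hb
        have h5 := g5_cvx B m c b k hk0.le hk1 hb
        rw [dist_comm B b, dist_comm B m, dist_comm B c] at h5
        have h6 : k * (dist A m + dist m B) ≤ k * (dist A c + dist c B) := by nlinarith
        exact le_of_mul_le_mul_left h6 hk0
    · -- s0 < 0
      have hst : 0 < t - s0 := by linarith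
      set k := t / (t - s0) with hk
      have hk0 : 0 < k := by
        rw [hk]; exact div_pos ht0 hst
      have hk1 : k ≤ 1 := by
        rw [hk, div_le_one hst]; linarith
      have hb : a = (1 - k) • m + k • c := by
        have e1 : (1 - k) * (1 - t) + k * (1 - s0) = 1 := by
          rw [hk]; field_simp; ring
        have e2 : (1 - k) * t + k * s0 = 0 := by
          rw [hk]; field_simp; ring
        rw [hm, hs0, smul_add, smul_add, smul_smul, smul_smul, smul_smul, smul_smul,
          show ((1 - k) * (1 - t)) • a + ((1 - k) * t) • b + ((k * (1 - s0)) • a + (k * s0) • b)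
            = ((1 - k) * (1 - t) + k * (1 - s0)) • a + ((1 - k) * t + k * s0) • b by
            rw [add_smul, add_smul]; abel, e1, e2]
        simp
      have h2 := hmin 0 le_rfl zero_le_one
      have h3 : (1 - (0 : ℝ)) • a + (0 : ℝ) • b = a := by simp
      rw [h3] at h2
      have h4 := g5_cvx A m c a k hk0.le hk1 hb
      have h5 := g5_cvx B m c a k hk0.le hk1 hb
      rw [dist_comm B a, dist_comm B m, dist_comm B c] at h5
      have h6 : k * (dist A m + dist m B) ≤ k * (dist A c + dist c B) := by nlinarith
      exact le_of_mul_le_mul_left h6 hk0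
  exact le_antisymm (hG.trans hcd.le) (dist_triangle _ _ _)

end Pool.Agent.Lib.MP_9f84a9_co
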