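import Pool.Agent.Lib.MP_9f84a9_co.G.StmG

set_option autoImplicit false

namespace Pool.Agent.Lib.MP_9f84a9_co

open Finset

theorem p_G6 : S_G6 := by
  intro P k hne hst
  rcases Nat.eq_zero_or_pos k with hk | hk
  · subst hk
    simp
  -- every difference is a positive multiple of the first
  have key : ∀ i, i < k → ∃ c : ℝ, 0 < c ∧ P (i + 1) - P i = c • (P 1 - P 0) := by
    intro i
    induction i with
    | zero => intro _; exact ⟨1, one_pos, by simp⟩
    | succ i ih =>
      intro hi
      obtain ⟨c, hc, hce⟩ := ih (by omega)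
      have h1 := hst i (by omega)
      rw [dist_add_dist_eq_iff] at h1
      have h2 : SameRay ℝ (P (i + 1) - P i) (P (i + 2) - P (i + 1)) := by
        have := h1.sameRay_vsub
        simpa [vsub_eq_sub] using this
      have hn1 : P (i + 1) - P i ≠ 0 := sub_ne_zero.2 (hne i (by omega)).symm
      have hn2 : P (i + 2) - P (i + 1) ≠ 0 := sub_ne_zero.2 (hne (i + 1) hi).symm
      obtain ⟨r1, r2, hr1, hr2, hr⟩ := h2.exists_pos hn1 hn2
      refine ⟨r2⁻¹ * r1 * c, by positivity, ?_⟩
      have : P (i + 1 + 1) - P (i + 1) = r2⁻¹ • (r1 • (P (i + 1) - P i)) := by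
        rw [hr, smul_smul, inv_mul_cancel₀ hr2.ne', one_smul]
      rw [this, hce, smul_smul, smul_smul]
  choose! c hc hce using key
  have e1 : ∑ i ∈ range k, dist (P i) (P (i + 1)) = ∑ i ∈ range k, c i * ‖P 1 - P 0‖ := by
    refine Finset.sum_congr rfl fun i hi => ?_
    have hi' := Finset.mem_range.1 hi
    rw [dist_comm, dist_eq_norm, hce i hi', norm_smul, Real.norm_of_nonneg (hc i hi').le]
  have e2 : P k - P 0 = (∑ i ∈ range k, c i) • (P 1 - P 0) := by
    rw [← Finset.sum_range_sub, Finset.sum_smul]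
    exact Finset.sum_congr rfl fun i hi => hce i (Finset.mem_range.1 hi)
  rw [e1, dist_comm, dist_eq_norm, e2, norm_smul, Real.norm_of_nonneg, Finset.sum_mul]
  exact Finset.sum_nonneg fun i hi => (hc i (Finset.mem_range.1 hi)).le

end Pool.Agent.Lib.MP_9f84a9_co
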