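import Pool.Agent.Lib.MP_9f84a9_co.G.StmG

/-!
# MP_9f84a9_co, piece [G7]: an intermediate point of a shortest chain
-/

set_option autoImplicit false

namespace Pool.Agent.Lib.MP_9f84a9_co

open Finset Filter Topology

private theorem g7_self {N : ℕ} (v : Fin N) : vx v v = 1 :=
  Pi.single_eq_same (M := fun _ : Fin N => ℝ) v 1

private theorem g7_ne {N : ℕ} {u v : Fin N} (h : u ≠ v) : vx v u = 0 :=
  Pi.single_eq_of_ne (M := fun _ : Fin N => ℝ) h 1

/-- a point is a vertex or has two positive coordinates -/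
private theorem g7_two {N : ℕ} (x : Pt N) (h0 : ∀ v, 0 ≤ x v) (h1 : ∑ v, x v = 1) :
    (∃ v, x = vx v) ∨ ∃ u v, u ≠ v ∧ 0 < x u ∧ 0 < x v := by
  obtain ⟨u, hu⟩ : ∃ u, 0 < x u := by
    by_contra hcon
    push Not at hcon
    have h2 : ∑ v, x v ≤ 0 := Finset.sum_nonpos fun v _ => hcon v
    linarith
  by_cases h : ∃ v, v ≠ u ∧ 0 < x v
  · obtain ⟨v, hv, hxv⟩ := h
    exact Or.inr ⟨u, v, hv.symm, hu, hxv⟩
  · push Not at h
    have hz : ∀ v, v ≠ u → x v = 0 := fun v hv => le_antisymm (h v hv) (h0 v)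
    have hxu : x u = 1 := by
      rw [← h1]
      exact (Finset.sum_eq_single u (fun v _ hv => hz v hv)
        (fun hn => absurd (Finset.mem_univ u) hn)).symm
    refine Or.inl ⟨u, funext fun v => ?_⟩
    by_cases hv : v = u
    · rw [hv, hxu]
      exact (g7_self u).symm
    · rw [hz v hv]
      exact (g7_ne hv).symm

private theorem g7_mem {N : ℕ} {x : Pt N} {f : Finset (Fin N)} {v : Fin N} (h : Sup x f)
    (hv : 0 < x v) : v ∈ f := by
  by_contra hcon
  have := h v hcon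
  linarith

theorem p_G7 : S_A1 → S_B4 → S_G1 → S_G3 → S_G5 → S_G7 := by
  intro hA1 hB4 hG1 hG3 hG5 N D p x0 x1 x2 hok hsp hone h01 h12 h02 hmin
  obtain ⟨-, -, -, -, A5, A6, A7, A8, -⟩ := hA1 N
  obtain ⟨B1, -⟩ := hB4 N D hok
  obtain ⟨hx0, hx1, f, hf, hf0, hf1⟩ := h01
  obtain ⟨-, hx2, f', hf', hf1', hf2'⟩ := h12
  have hff : f ≠ f' := fun h => h02 ⟨hx0, hx2, f', hf', h ▸ hf0, hf2'⟩
  rcases g7_two x1 hx1.1 hx1.2.1 with ⟨v, hv⟩ | ⟨x, y, hxy, hpx, hpy⟩
  · refine Or.inl ⟨v, B1 f hf v (g7_mem hf1 ?_), hv⟩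
    rw [hv, g7_self]
    exact one_pos
  · right
    obtain ⟨a, b, w, w', l, r, l', r', -, hfe, hfe', hab, haw, hbw, haw', hbw', hww', harw, harw',
      hor⟩ := (hG3 N D p hok hsp hone).2 f hf f' hf' hff x (g7_mem hf1 hpx) y (g7_mem hf1 hpy) hxy
        (g7_mem hf1' hpx) (g7_mem hf1' hpy)
    have hab' : 0 < x1 a ∧ 0 < x1 b := by
      rcases hor with ⟨h1, h2⟩ | ⟨h1, h2⟩
      · rw [h1, h2]; exact ⟨hpx, hpy⟩
      · rw [h1, h2]; exact ⟨hpy, hpx⟩
    obtain ⟨hpa, hpb⟩ := hab'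
    subst hfe
    subst hfe'
    have hx1w : x1 w = 0 := hf1' w (by simp [haw.symm, hbw.symm, hww'])
    have hx1sup : ∀ v, v ≠ a → v ≠ b → x1 v = 0 := by
      intro v hva hvb
      by_cases hvw : v = w
      · rw [hvw]; exact hx1w
      · exact hf1 v (by simp [hva, hvb, hvw])
    have hsum : x1 a + x1 b = 1 := by
      have h := hx1.2.1
      rw [← h]
      symm
      exact Finset.sum_eq_add a b hab (fun v _ hv => hx1sup v hv.1 hv.2)
        (fun hn => absurd (Finset.mem_univ a) hn) (fun hn => absurd (Finset.mem_univ b) hn)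
    have hx1eq : x1 = (1 - x1 b) • vx a + x1 b • vx b := by
      funext v
      show x1 v = (1 - x1 b) * vx a v + x1 b * vx b v
      by_cases hva : v = a
      · rw [hva, g7_self, g7_ne hab, mul_one, mul_zero, add_zero]
        linarith
      · by_cases hvb : v = b
        · rw [hvb, g7_self, g7_ne hab.symm, mul_one, mul_zero, zero_add]
        · rw [g7_ne hva, g7_ne hvb, mul_zero, mul_zero, add_zero]
          exact hx1sup v hva hvb
    have hx0w : 0 < x0 w := by
      rcases (hx0.1 w).lt_or_eq with h | h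
      · exact h
      · exfalso
        refine h02 ⟨hx0, hx2, {a, b, w'}, hf', fun v hv => ?_, hf2'⟩
        by_cases hvw : v = w
        · rw [hvw]; exact h.symm
        · refine hf0 v fun hm => hv ?_
          simp only [Finset.mem_insert, Finset.mem_singleton] at hm ⊢
          tauto
    have hx2w : 0 < x2 w' := by
      rcases (hx2.1 w').lt_or_eq with h | h
      · exact h
      · exfalso
        refine h02 ⟨hx0, hx2, {a, b, w}, hf, hf0, fun v hv => ?_⟩
        by_cases hvw : v = w'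
        · rw [hvw]; exact h.symm
        · refine hf2' v fun hm => hv ?_
          simp only [Finset.mem_insert, Finset.mem_singleton] at hm ⊢
          tauto
    obtain ⟨g1, -, -, -, -, g6, -⟩ := hG1 N a b w hab haw hbw
    obtain ⟨g1', -⟩ := hG1 N b a w' hab.symm hbw' haw'
    have hA : 0 < ar (p a) (p b) (pos p x0) := by
      rw [(g1 p x0 hx0.2.1 hf0).1]
      exact mul_pos hx0w harw
    have hperm : ({b, a, w'} : Finset (Fin N)) = {a, b, w'} := by
      ext v
      simp only [Finset.mem_insert, Finset.mem_singleton]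
      tauto
    have hB : ar (p a) (p b) (pos p x2) < 0 := by
      have h := (g1' p x2 hx2.2.1 (by rw [hperm]; exact hf2')).1
      have h2 := (g6 (p a) (p b) (pos p x2)).2.1
      have h3 := mul_pos hx2w harw'
      linarith
    have hM : ar (p a) (p b) (pos p x1) = 0 := by
      rw [(g1 p x1 hx1.2.1 hf1).1, hx1w, zero_mul]
    have hva : ∀ s : ℝ, 0 ≤ s → s ≤ 1 → Stp D.K x0 ((1 - s) • vx a + s • vx b) ∧
        Stp D.K ((1 - s) • vx a + s • vx b) x2 := by
      intro s hs0 hs1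
      obtain ⟨ia, sa⟩ := A5 D.K {a, b, w} a hf (by simp)
      obtain ⟨ib, sb⟩ := A5 D.K {a, b, w} b hf (by simp)
      obtain ⟨-, sa'⟩ := A5 D.K {a, b, w'} a hf' (by simp)
      obtain ⟨-, sb'⟩ := A5 D.K {a, b, w'} b hf' (by simp)
      obtain ⟨m1, m2, m3⟩ := A7 {a, b, w} (vx a) (vx b) s ia.1 ia.2.1 sa ib.1 ib.2.1 sb hs0 hs1
      obtain ⟨-, -, m3'⟩ := A7 {a, b, w'} (vx a) (vx b) s ia.1 ia.2.1 sa' ib.1 ib.2.1 sb' hs0 hs1
      have hin : In D.K ((1 - s) • vx a + s • vx b) := ⟨m1, m2, _, hf, m3⟩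
      exact ⟨⟨hx0, hin, _, hf, hf0, m3⟩, ⟨hin, hx2, _, hf', m3', hf2'⟩⟩
    have hpos : ∀ s : ℝ, pos p ((1 - s) • vx a + s • vx b) = (1 - s) • p a + s • p b := by
      intro s
      rw [A8, A6, A6]
    have h5 := hG5 (p a) (p b) (pos p x0) (pos p x2) (pos p x1) (x1 b) hpb (by linarith)
      (by rw [← hpos, ← hx1eq]) hA hB (fun s hs0 hs1 => by
        obtain ⟨h1, h2⟩ := hva s hs0 hs1
        have h := hmin _ h1 h2
        rw [← hpos]
        exact h)
    refine ⟨h5, fun h => ?_, fun h => ?_⟩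
    · rw [h, hM] at hA
      exact lt_irrefl _ hA
    · rw [← h, hM] at hB
      exact lt_irrefl _ hB

end Pool.Agent.Lib.MP_9f84a9_co
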