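import Pool.Agent.Lib.MP_9f84a9_co.G.StmG

/-!
# MP_9f84a9_co, piece G8: shortest chains in a positive disc are straight or pass through a vertex.
-/

set_option autoImplicit false

namespace Pool.Agent.Lib.MP_9f84a9_co

open Finset Filter Topology

private theorem g8_one {N : ℕ} (K : Cx N) (c : Pt N → Pt N → ℝ) (x y : Pt N) (h : Stp K x y) :
    Path K c x y 1 (c x y) := by
  have h1 := Path.cons (K := K) (c := c) x y y 0 0 h (Path.nil y h.2.1)
  rw [add_zero] at h1
  exact h1

theorem p_G8 : S_A1 → S_A2 → S_A3 → S_A4 → S_A6 → S_B4 → S_B5 → S_G2 → S_G6 → S_G7 → S_SL := by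
  intro hA1 hA2 hA3 hA4 hA6 _ hB5 hG2 hG6 hG7 N D p hok hsp x y hx hy
  have hcost : IsCost (ce p) := (hA1 N).1 p
  have hCn : Cn D.K := hB5 N D hok
  by_cases hOne : D.One
  · right
    apply le_antisymm
    · have hK : D.K = {{D.a, D.b}} := by
        unfold Dsc.K
        exact if_pos hOne
      refine (hA2 N D.K (ce p) hcost hCn).2.2.2.2 x y ⟨hx, hy, ?_⟩
      obtain ⟨-, -, f, hf, hfx⟩ := hx
      obtain ⟨-, -, g, hg, hgy⟩ := hy
      have hf' := hf
      rw [hK, Finset.mem_singleton] at hf' hg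
      refine ⟨f, hf, hfx, ?_⟩
      rw [hf', ← hg]
      exact hgy
    · exact hA3 N D.K (ce p) (ce p) hCn (fun z _ => (hcost.self z).le)
        (fun a b c _ _ _ => hcost.tri a b c) (fun _ _ _ => le_rfl) x y hx hy
  obtain ⟨k, hk, hmin⟩ := hA6 N D.K p hCn x y hx hy
  obtain ⟨g1, g2, g3⟩ := hG2 N D.K (ce p) hcost
  obtain ⟨-, u, hu0, huk, hst, hd⟩ := ((hA4 N D.K (ce p) hcost).1 x y k _).1 hk
  generalize hdd : dK D.K (ce p) x y = d at hk hmin hd ⊢
  have hfew : ∀ k' < k, ∀ r, Path D.K (ce p) x y k' r → d < r := by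
    intro k' hk' r hr
    have h1 := (g1 x y k' r hr).2
    rw [hdd] at h1
    rcases h1.lt_or_eq with h | h
    · exact h
    · exfalso
      rw [← h] at hr
      exact hmin k' hk' hr
  have hall : ∀ k' r, Path D.K (ce p) x y k' r → d ≤ r := by
    intro k' r hr
    have h1 := (g1 x y k' r hr).2
    rwa [hdd] at h1
  have hin0 : In D.K (u 0) := by rw [hu0]; exact hx
  have hsplit : ∀ i, i ≤ k → (∑ n ∈ Ico 0 i, ce p (u n) (u (n + 1))) +
      (∑ n ∈ Ico i k, ce p (u n) (u (n + 1))) = d := by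
    intro i hi
    rw [hd, Finset.range_eq_Ico]
    exact Finset.sum_Ico_consecutive _ (Nat.zero_le i) hi
  have hnn : ∀ i j, 0 ≤ ∑ n ∈ Ico i j, ce p (u n) (u (n + 1)) := fun i j =>
    Finset.sum_nonneg fun n _ => hcost.nonneg _ _
  have hpre : ∀ i, i ≤ k → Path D.K (ce p) x (u i) i (∑ n ∈ Ico 0 i, ce p (u n) (u (n + 1))) := by
    intro i hi
    have h1 := g3 u k 0 i hin0 hst (Nat.zero_le i) hi
    rw [hu0, Nat.sub_zero] at h1
    exact h1
  have hsuf : ∀ i, i ≤ k → Path D.K (ce p) (u i) y (k - i)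
      (∑ n ∈ Ico i k, ce p (u n) (u (n + 1))) := by
    intro i hi
    have h1 := g3 u k i k hin0 hst hi le_rfl
    rw [huk] at h1
    exact h1
  by_cases hC : ∃ i, 0 < i ∧ i < k ∧ ∃ v ∈ D.vl, u i = vx v
  · left
    obtain ⟨i, hi0, hik, v, hv, huv⟩ := hC
    have hs := hsplit i hik.le
    have hp1 := hpre i hik.le
    have hp2 := hsuf i hik.le
    rw [huv] at hp1 hp2
    refine ⟨v, hv, ?_, ?_, ?_⟩
    · intro h
      rw [h] at hp2
      have h1 := hfew (k - i) (by omega) _ hp2
      have h2 := hnn 0 i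
      linarith
    · intro h
      rw [h] at hp1
      have h1 := hfew i hik _ hp1
      have h2 := hnn i k
      linarith
    · have h1 := (g1 _ _ _ _ hp1).2
      have h2 := (g1 _ _ _ _ hp2).2
      linarith
  · right
    have hstep : ∀ j, j + 2 ≤ k → (ce p (u j) (u (j + 1)) + ce p (u (j + 1)) (u (j + 2)) =
        ce p (u j) (u (j + 2)) ∧ pos p (u j) ≠ pos p (u (j + 1)) ∧
        pos p (u (j + 1)) ≠ pos p (u (j + 2))) := by
      intro j hj
      have hs1 := hst j (by omega)
      have hs2 := hst (j + 1) (by omega)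
      have hp1 := hpre j (by omega)
      have hp2 := hsuf (j + 2) hj
      have hsum : (∑ n ∈ Ico 0 j, ce p (u n) (u (n + 1))) +
          (ce p (u j) (u (j + 1)) + ce p (u (j + 1)) (u (j + 2))) +
          (∑ n ∈ Ico (j + 2) k, ce p (u n) (u (n + 1))) = d := by
        have e1 := hsplit (j + 2) hj
        rw [Finset.sum_Ico_succ_top (Nat.zero_le (j + 1)),
          Finset.sum_Ico_succ_top (Nat.zero_le j)] at e1
        linarith
      have htri := hcost.tri (u j) (u (j + 1)) (u (j + 2))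
      have hns : ¬ Stp D.K (u j) (u (j + 2)) := by
        intro h
        have h1 := g2 _ _ _ _ _ _ _ (g2 _ _ _ _ _ _ _ hp1 (g8_one D.K (ce p) _ _ h)) hp2
        have h2 := hfew _ (by omega) _ h1
        linarith
      have hm : ∀ m, Stp D.K (u j) m → Stp D.K m (u (j + 2)) →
          ce p (u j) (u (j + 1)) + ce p (u (j + 1)) (u (j + 2)) ≤
            ce p (u j) m + ce p m (u (j + 2)) := by
        intro m hm1 hm2
        have h1 := g2 _ _ _ _ _ _ _ (g2 _ _ _ _ _ _ _ (g2 _ _ _ _ _ _ _ hp1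
          (g8_one D.K (ce p) _ _ hm1)) (g8_one D.K (ce p) _ _ hm2)) hp2
        have h2 := hall _ _ h1
        linarith
      rcases hG7 N D p (u j) (u (j + 1)) (u (j + 2)) hok hsp hOne hs1 hs2 hns hm with h | h
      · exfalso
        obtain ⟨v, hv, huv⟩ := h
        exact hC ⟨j + 1, by omega, by omega, v, hv, huv⟩
      · exact h
    rcases Nat.lt_or_ge k 2 with hk2 | hk2
    · rcases k with _ | k
      · rw [hd, Finset.sum_range_zero, ← hu0, ← huk, dist_self]
      · obtain rfl : k = 0 := by omega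
        rw [hd, Finset.sum_range_one, ← hu0, ← huk]
        rfl
    · have hne : ∀ i < k, pos p (u i) ≠ pos p (u (i + 1)) := by
        intro i hi
        rcases Nat.lt_or_ge k (i + 2) with h | h
        · obtain ⟨j, rfl⟩ : ∃ j, i = j + 1 := ⟨i - 1, by omega⟩
          exact (hstep j (by omega)).2.2
        · exact (hstep i h).2.1
      have h6 := hG6 (fun n => pos p (u n)) k hne (fun i hi => (hstep i hi).1)
      rw [hd, ← hu0, ← huk]
      exact h6

end Pool.Agent.Lib.MP_9f84a9_co
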