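import Pool.Agent.Lib.MP_9f84a9_co.G.StmG

/-!
# MP_9f84a9_co, piece [G9]: distinct points of a positive disc have positive distance
-/

set_option autoImplicit false

namespace Pool.Agent.Lib.MP_9f84a9_co

open Finset Filter Topology

theorem p_G9 : S_A1 → S_A4 → S_A6 → S_B1 → S_B4 → S_B5 → S_G1 → S_G3 → S_sep0 := by
  intro hA1 hA4 hA6 _ hB4 hB5 hG1 hG3 N D p hok hsp
  by_cases hone : D.One
  · exact Or.inr hone
  · left
    intro x y hx hy h0
    obtain ⟨k, hpath, -⟩ := hA6 N D.K p (hB5 N D hok) x y hx hy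
    rw [h0] at hpath
    have hc : IsCost (ce p) := (hA1 N).1 p
    obtain ⟨-, u, hu0, huk, hst, hsum⟩ := ((hA4 N D.K (ce p) hc).1 x y k 0).1 hpath
    have hz : ∀ i < k, ce p (u i) (u (i + 1)) = 0 := by
      intro i hi
      exact (Finset.sum_eq_zero_iff_of_nonneg (fun j _ => hc.nonneg _ _)).1 hsum.symm i
        (Finset.mem_range.2 hi)
    have hstep : ∀ i < k, u i = u (i + 1) := by
      intro i hi
      obtain ⟨h1, h2, f, hf, hs1, hs2⟩ := hst i hi
      have hcard : f.card = 3 := by
        rcases (hB4 N D hok).2.2.1 f hf with h | h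
        · exact h
        · exact absurd ⟨h.1, h.2.1⟩ hone
      obtain ⟨v, hv, v', hv', hvv⟩ := Finset.one_lt_card.1 (show 1 < f.card by omega)
      obtain ⟨a, b, w, l, r, R, -, hfe, hab, haw, hbw, har, -⟩ :=
        (hG3 N D p hok hsp hone).1 f hf v hv v' hv' hvv
      subst hfe
      exact (hG1 N a b w hab haw hbw).2.2.2.1 p (u i) (u (i + 1)) har.ne' h1.2.1 hs1 h2.2.1 hs2
        (dist_eq_zero.1 (hz i hi))
    have hall : ∀ i ≤ k, u 0 = u i := by
      intro i
      induction i with
      | zero => intro _; rfl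
      | succ i ih => intro hi; rw [ih (by omega)]; exact hstep i (by omega)
    rw [← hu0, ← huk]
    exact hall k le_rfl

end Pool.Agent.Lib.MP_9f84a9_co
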