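import Pool.Agent.Lib.MP_9f84a9_co.P.A1
import Pool.Agent.Lib.MP_9f84a9_co.P.A2
import Pool.Agent.Lib.MP_9f84a9_co.P.A3
import Pool.Agent.Lib.MP_9f84a9_co.P.A4
import Pool.Agent.Lib.MP_9f84a9_co.P.A5
import Pool.Agent.Lib.MP_9f84a9_co.P.A6
import Pool.Agent.Lib.MP_9f84a9_co.P.A7
import Pool.Agent.Lib.MP_9f84a9_co.P.B1
import Pool.Agent.Lib.MP_9f84a9_co.P.B2
import Pool.Agent.Lib.MP_9f84a9_co.P.B3
import Pool.Agent.Lib.MP_9f84a9_co.P.B4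
import Pool.Agent.Lib.MP_9f84a9_co.P.B5
import Pool.Agent.Lib.MP_9f84a9_co.G.g1
import Pool.Agent.Lib.MP_9f84a9_co.G.g2
import Pool.Agent.Lib.MP_9f84a9_co.G.g3
import Pool.Agent.Lib.MP_9f84a9_co.G.g4
import Pool.Agent.Lib.MP_9f84a9_co.G.g5
import Pool.Agent.Lib.MP_9f84a9_co.G.g6
import Pool.Agent.Lib.MP_9f84a9_co.G.g7
import Pool.Agent.Lib.MP_9f84a9_co.G.g8
import Pool.Agent.Lib.MP_9f84a9_co.G.g9
import Pool.Agent.Lib.MP_9f84a9_co.G.g10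
import Pool.Agent.Lib.MP_9f84a9_co.G.g11
import Pool.Agent.Lib.MP_9f84a9_co.G.g12b
import Pool.Agent.Lib.MP_9f84a9_co.G.g13
import Pool.Agent.Lib.MP_9f84a9_co.G.g14
import Pool.Agent.Lib.MP_9f84a9_co.G.g15
import Pool.Agent.Lib.MP_9f84a9_co.G.g16
import Pool.Agent.Lib.MP_9f84a9_co.G.g17
import Pool.Agent.Lib.MP_9f84a9_co.G.g18
import Pool.Agent.Lib.MP_9f84a9_co.G.g19
import Pool.Agent.Lib.MP_9f84a9_co.G.g20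
import Pool.Agent.Lib.MP_9f84a9_co.G.g21
import Pool.Agent.Lib.MP_9f84a9_co.G.g22
import Pool.Agent.Lib.MP_9f84a9_co.G.g23
import Pool.Agent.Lib.MP_9f84a9_co.G.g24
import Pool.Agent.Lib.MP_9f84a9_co.G.g25

/-!
# MP_9f84a9_co, module G: assembly of the outputs of section 4
-/

set_option autoImplicit false

namespace Pool.Agent.Lib.MP_9f84a9_co

theorem a_A6 : S_A6 := t_A6 t_A1 t_A4
theorem a_A5 : S_A5 := t_A5 t_A1 t_A4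
theorem a_A7 : S_A7 := t_A7 t_A1 t_A2 a_A5

theorem a_G2 : S_G2 := p_G2 t_A4
theorem a_G3 : S_G3 := p_G3 t_B1 t_B2 t_B3
theorem a_G4 : S_G4 := p_G4 t_B4 a_G3
theorem a_G7 : S_G7 := p_G7 t_A1 t_B4 p_G1 a_G3 p_G5

/-- 4.1 -/
theorem out_SL : S_SL := p_G8 t_A1 t_A2 t_A3 t_A4 a_A6 t_B4 t_B5 a_G2 p_G6 a_G7
theorem out_sep0 : S_sep0 := p_G9 t_A1 t_A4 a_A6 t_B1 t_B4 t_B5 p_G1 a_G3
/-- 4.4 -/
theorem out_pers : S_pers := p_G10 t_B1 t_B4 p_G1 a_G3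

theorem a_G12 : S_G12 := p_G12b t_A1 a_A7 t_B4 t_B5 out_SL p_G11
theorem a_G16 : S_G16 := p_G16 t_A1 t_A4 a_A6 t_B1 t_B3 t_B5 p_G1 a_G2 a_G3
theorem a_G17 : S_G17 := p_G17 t_A1 t_B1 t_B4 p_G1 a_G3 a_G4 a_G16
theorem a_G20 : S_G20 :=
  p_G20 t_A1 t_A2 t_A3 t_B4 t_B5 out_SL out_sep0 a_G12 a_G17 p_G19
theorem a_G22 : S_G22 := p_G22 t_A1 t_B4 p_G13
theorem a_G23 : S_G23 :=
  p_G23 t_A1 t_A2 t_B5 out_SL out_sep0 p_G13 p_G15 p_G18 a_G20 p_G21 a_G22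
theorem a_G24 : S_G24 :=
  p_G24 t_A1 t_A2 t_B5 out_SL out_sep0 a_G4 p_G13 p_G15 a_G16 p_G18 a_G20 a_G22 a_G23

/-- section 4 -/
theorem out_geo (hsurg : S_surg) : S_geo := p_G25 out_SL a_G22 a_G23 a_G24 hsurg

end Pool.Agent.Lib.MP_9f84a9_co
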