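import Pool.Agent.Lib.MP_9f84a9_co.Out
import Pool.Agent.Lib.MP_9f84a9_co.StmA
import Pool.Agent.Lib.MP_9f84a9_co.StmB

/-!
# MP_9f84a9_co, module G (section 4): geometry of positive discs, the network of the extremal configuration.
Statements with complete proofs in the docstrings.  `S_A*`, `S_B*` are available as hypotheses.
-/

set_option autoImplicit false

namespace Pool.Agent.Lib.MP_9f84a9_co

open Finset Filter Topology

/-- cross product -/
def cr (u v : E) : ℝ := u 0 * v 1 - u 1 * v 0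

/-- the point of the triangle `a b w` with position `q` (barycentric coordinates) -/
noncomputable def bc {N : ℕ} (a b w : Fin N) (p : Fin N → E) (q : E) : Pt N :=
  (ar (p b) (p w) q / ar (p a) (p b) (p w)) • vx a + (ar (p w) (p a) q / ar (p a) (p b) (p w)) • vx b +
    (ar (p a) (p b) q / ar (p a) (p b) (p w)) • vx w

/-- the disc is a single edge -/
def Dsc.One {N : ℕ} (D : Dsc N) : Prop := D.P = PT.nil ∧ D.R = PT.nil

/-- [G1] Areas and barycentric coordinates.
PROOF. (1) `pos p x = x a • p a + x b • p b + x w • p w` (the sum over `Fin N` reduces to the support, `Finset.sum_subset`), `x a + x b + x w = 1`; `ar` is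
affine in each argument: coordinates + `ring`/`nlinarith`. (2),(3) coordinates: `EuclideanSpace` extensionality (`Fin 2`), `field_simp`, `ring`. (4) by (3) `x = bc (pos x) = bc (pos y) = y`.
(5) everything is a continuous function of `(p,q)` near a point with `ar ≠ 0` (`Tendsto.div`, `Continuous` of `ar`). (6),(7): `ring`. -/
def S_G1 : Prop :=
  ∀ (N : ℕ) (a b w : Fin N), a ≠ b → a ≠ w → b ≠ w →
    (∀ (p : Fin N → E) (x : Pt N), ∑ v, x v = 1 → Sup x {a, b, w} →
      ar (p a) (p b) (pos p x) = x w * ar (p a) (p b) (p w) ∧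
      ar (p b) (p w) (pos p x) = x a * ar (p a) (p b) (p w) ∧
      ar (p w) (p a) (pos p x) = x b * ar (p a) (p b) (p w)) ∧
    (∀ (p : Fin N → E) (q : E), ar (p a) (p b) (p w) ≠ 0 →
      pos p (bc a b w p q) = q ∧ ∑ v, bc a b w p q v = 1 ∧ Sup (bc a b w p q) {a, b, w} ∧
      bc a b w p q a = ar (p b) (p w) q / ar (p a) (p b) (p w) ∧
      bc a b w p q b = ar (p w) (p a) q / ar (p a) (p b) (p w) ∧
      bc a b w p q w = ar (p a) (p b) q / ar (p a) (p b) (p w)) ∧
    (∀ (p : Fin N → E) (x : Pt N), ar (p a) (p b) (p w) ≠ 0 → ∑ v, x v = 1 → Sup x {a, b, w} →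
      bc a b w p (pos p x) = x) ∧
    (∀ (p : Fin N → E) (x y : Pt N), ar (p a) (p b) (p w) ≠ 0 → ∑ v, x v = 1 → Sup x {a, b, w} →
      ∑ v, y v = 1 → Sup y {a, b, w} → pos p x = pos p y → x = y) ∧
    (∀ (ι : Type) (l : Filter ι) (pf : ι → Fin N → E) (qf : ι → E) (p : Fin N → E) (q : E),
      ar (p a) (p b) (p w) ≠ 0 → Tendsto pf l (𝓝 p) → Tendsto qf l (𝓝 q) →
      Tendsto (fun i => bc a b w (pf i) (qf i)) l (𝓝 (bc a b w p q))) ∧
    (∀ x y z : E, ar x y z = ar y z x ∧ ar y x z = - ar x y z ∧ ar x y z = cr (y - x) (z - x)) ∧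
    (∀ (x y z v : E) (s : ℝ), ar x y (z + s • v) = ar x y z + s * cr (y - x) v)

/-- [G2] Paths: appending, sub-paths, comparison with `dK`.
PROOF. (1) `csInf_le`, bounded below by 0 (lengths of paths are nonnegative, induction). (2) induction on the first path. (3) from the sequence form A4 (1) (apply it to
the shifted sequence `fun l => u (i + l)`), `Finset.sum_Ico_eq_sum_range`. -/
def S_G2 : Prop :=
  ∀ (N : ℕ) (K : Cx N) (c : Pt N → Pt N → ℝ), IsCost c →
    (∀ (x y : Pt N) (k : ℕ) (r : ℝ), Path K c x y k r → 0 ≤ r ∧ dK K c x y ≤ r) ∧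
    (∀ (x y z : Pt N) (k k' : ℕ) (r r' : ℝ), Path K c x y k r → Path K c y z k' r' →
      Path K c x z (k + k') (r + r')) ∧
    (∀ (u : ℕ → Pt N) (k i j : ℕ), In K (u 0) → (∀ n < k, Stp K (u n) (u (n + 1))) → i ≤ j → j ≤ k →
      Path K c (u i) (u j) (j - i) (∑ n ∈ Ico i j, c (u n) (u (n + 1))))

/-- [G3] A facet as the top triangle, and adjacent facets.
PROOF. (1) B2 (2) gives `D'` with `D'.P = node w l r`, `f = {D'.a, D'.b, w}`, B1 gives `D'.ok` (so `a, b, w` distinct from `Nodup`) and `D'.SPos p`, whose first component is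
`0 < ar (p a) (p b) (p w)`. (2) by (1) for `f` and `x, y`: `D' = ⟨a,b,node w l r,R⟩`, `{a,b} = {x,y}`; `f'` contains `a`, `b`, `f' ∈ D'.K` (B1), B3 for `D'`: first case impossible, second
case: `PT.node` is injective, so `f' = f`, excluded; third: `R = node w' l' r'`, `f' = {a,b,w'}`; `SPos` gives `0 < ar (p b) (p a) (p w')`. -/
def S_G3 : Prop :=
  ∀ (N : ℕ) (D : Dsc N) (p : Fin N → E), D.ok → D.SPos p → ¬ D.One →
    (∀ f ∈ D.K, ∀ x ∈ f, ∀ y ∈ f, x ≠ y →
      ∃ (a b w : Fin N) (l r R : PT N), Dsc.Eqv D ⟨a, b, PT.node w l r, R⟩ ∧ f = {a, b, w} ∧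
        a ≠ b ∧ a ≠ w ∧ b ≠ w ∧ 0 < ar (p a) (p b) (p w) ∧ ((a = x ∧ b = y) ∨ (a = y ∧ b = x))) ∧
    (∀ f ∈ D.K, ∀ f' ∈ D.K, f ≠ f' → ∀ x ∈ f, ∀ y ∈ f, x ≠ y → x ∈ f' → y ∈ f' →
      ∃ (a b w w' : Fin N) (l r l' r' : PT N),
        Dsc.Eqv D ⟨a, b, PT.node w l r, PT.node w' l' r'⟩ ∧ f = {a, b, w} ∧ f' = {a, b, w'} ∧
        a ≠ b ∧ a ≠ w ∧ b ≠ w ∧ a ≠ w' ∧ b ≠ w' ∧ w ≠ w' ∧ 0 < ar (p a) (p b) (p w) ∧
        0 < ar (p b) (p a) (p w') ∧ ((a = x ∧ b = y) ∨ (a = y ∧ b = x)))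

/-- [G4] A point of the disc which is not a vertex is an inner point or on a boundary edge.
PROOF. Let `z` be supported in `f ∈ K`, `f.card = 3` (B4). If all three coordinates are positive: first alternative of `Inn`. Otherwise at least two are positive (sum 1; if only one is
nonzero then `z = vx v`), say at `x ≠ y ∈ f`, and the third is 0. G3 (1): `D ~ ⟨a,b,node w l r,R⟩`, `{a,b} = {x,y}`, so `z a, z b > 0`, `z a + z b = 1`. If `R = nil`: second conclusion; else the second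
alternative of `Inn`. -/
def S_G4 : Prop :=
  ∀ (N : ℕ) (D : Dsc N) (p : Fin N → E) (z : Pt N), D.ok → D.SPos p → ¬ D.One → In D.K z →
    (∀ v, z ≠ vx v) →
    (∃ f ∈ D.K, f.card = 3 ∧ ∀ v ∈ f, 0 < z v) ∨
    (∃ (a b w : Fin N) (l r R : PT N), Dsc.Eqv D ⟨a, b, PT.node w l r, R⟩ ∧
      0 < z a ∧ 0 < z b ∧ z a + z b = 1)

/-- [G5] Crossing a line at a point where the broken line is shortest.
PROOF. `a ≠ b`. Let `lam = ar a b A / (ar a b A - ar a b B) ∈ (0,1)`, `c = A + lam (B - A)`; then `ar a b c = 0`, so `c = (1-s0) a + s0 b` for some real `s0`. Put `x s = (1-s) a + s b`,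
`g s = dist A (x s) + dist (x s) B`: `g` is convex, `g s0 = dist A B`, `x t = m`. If `s0 ∈ [0,1]`: `g t ≤ g s0`. If `s0 > 1`: `1 = (1-k) t + k s0` with `k ∈ (0,1]`, so
`g t ≤ g 1 ≤ (1-k) g t + k g s0`, so `g t ≤ g s0`. If `s0 < 0`: same with `0`. The reverse inequality is the triangle inequality. -/
def S_G5 : Prop :=
  ∀ (a b A B m : E) (t : ℝ), 0 < t → t < 1 → m = (1 - t) • a + t • b → 0 < ar a b A → ar a b B < 0 →
    (∀ s : ℝ, 0 ≤ s → s ≤ 1 → dist A m + dist m B ≤
      dist A ((1 - s) • a + s • b) + dist ((1 - s) • a + s • b) B) →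
    dist A m + dist m B = dist A B

/-- [G6] Locally straight chains are straight.
PROOF. `dist_add_dist_eq_iff` (strict convexity): `Wbtw`, so `SameRay (P (i+1) - P i) (P (i+2) - P (i+1))`, nonzero vectors; by induction every `P (i+1) - P i` is a positive multiple of
`P 1 - P 0`; so the norm of the telescoping sum is the sum of the norms. -/
def S_G6 : Prop :=
  ∀ (P : ℕ → E) (k : ℕ), (∀ i < k, P i ≠ P (i + 1)) →
    (∀ i, i + 2 ≤ k → dist (P i) (P (i + 1)) + dist (P (i + 1)) (P (i + 2)) = dist (P i) (P (i + 2))) →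
    ∑ i ∈ range k, dist (P i) (P (i + 1)) = dist (P 0) (P k)

/-- [G7] An intermediate point of a shortest chain.
PROOF. Let `x0, x1` be supported in `f`, `x1, x2` in `f'`. `f ≠ f'` as `¬ Stp K x0 x2`. If the support of `x1` is one vertex `v`: `x1 = vx v`, `v ∈ f`, B4. Else there are `x ≠ y` with
`x1 x, x1 y > 0`, both in `f ∩ f'`: G3 (2): `a b w w'`; `x1` is supported in `f ∩ f' = {a,b}`, `x1 a, x1 b > 0`, so `pos x1 = (1-t) p a + t p b` with `t = x1 b ∈ (0,1)`. `x0 w > 0`, else `x0` is supported in `{a,b} ⊆ f'`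
and `Stp K x0 x2`. Same `x2 w' > 0`. By G1 (1) `ar (p a) (p b) (pos x0) = x0 w * _ > 0`; for the triangle `b a w'`: `ar (p b) (p a) (pos x2) = x2 w' * _ > 0`, so `ar (p a) (p b) (pos x2) < 0`.
For `s ∈ [0,1]` the point `m = (1-s) vx a + s vx b` is in both facets, with position `(1-s) p a + s p b`: apply the minimality and G5. `pos x0 ≠ pos x1` since
`ar (p a) (p b) (pos x1) = 0`; same for `x2`. -/
def S_G7 : Prop :=
  ∀ (N : ℕ) (D : Dsc N) (p : Fin N → E) (x0 x1 x2 : Pt N), D.ok → D.SPos p → ¬ D.One →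
    Stp D.K x0 x1 → Stp D.K x1 x2 → ¬ Stp D.K x0 x2 →
    (∀ m, Stp D.K x0 m → Stp D.K m x2 → ce p x0 x1 + ce p x1 x2 ≤ ce p x0 m + ce p m x2) →
    (∃ v ∈ D.vl, x1 = vx v) ∨
    (ce p x0 x1 + ce p x1 x2 = ce p x0 x2 ∧ pos p x0 ≠ pos p x1 ∧ pos p x1 ≠ pos p x2)

/-- [G8] `S_SL` (4.1) from the lemmas: this is the piece `S_A1 → S_A2 → S_A3 → S_A4 → S_A6 → S_B4 → S_B5 → S_G2 → S_G6 → S_G7 → S_SL`.
PROOF. If `D.One`: `K = {{a,b}}`, `Stp K x y`, so `dK ≤ dist` (A2 (5)), and `dist (pos x) (pos y) ≤ dK` always (A3 with `ρ = ce p`). Otherwise take by A6 a path with `k` steps and length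
`d := dK x y`, `k` minimal; A4 (1): sequence `u`. `k = 0`: `x = y`, `d = 0`. Every path from `x` to `y` has length `≥ d` (G2 (1)), and a path with fewer steps has length `> d`.
CASE 1: some `u i`, `0 < i < k`, is `vx v` with `v ∈ vl`. `vx v ≠ x`: else the sub-path from `u i = x` (G2 (3)) has `k - i < k` steps and length `≤ d`, so `= d`; contradiction. `vx v ≠ y`: same. By G2 (3),(1)
`dK x (vx v) + dK (vx v) y ≤ ∑_(n<i) + ∑_(n≥i) = d`. CASE 2: otherwise for `0 < i < k` apply G7 to `u (i-1), u i, u (i+1)`: `¬ Stp` since otherwise there is a path with `k-1` steps and length `≤ d`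
(G2 (2),(3), triangle inequality for `ce`); minimality: replacing `u i` by `m` gives a path from `x` to `y`. So all hypotheses of G6 hold for `P n = pos p (u n)` if `k ≥ 2` (`P i ≠ P (i+1)`
for all `i < k` since every step is adjacent to an intermediate point), and `d = dist`. `k = 1`: `d = ce p x y`. -/
def S_G8 : Prop := S_SL

/-- [G9] `S_sep0` from the lemmas: piece `S_A1 → S_A4 → S_A6 → S_B1 → S_B4 → S_B5 → S_G1 → S_G3 → S_sep0`.
PROOF. If not `D.One`: a path of length 0 (A6), sequence `u` (A4 (1)), all step costs are 0 (nonnegative, sum 0). Each step: `u i, u (i+1)` supported in `f ∈ K`, `f.card = 3` (B4), `f = {a,b,w}` with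
`ar ≠ 0` (G3 (1) for two elements of `f`), same position, so `u i = u (i+1)` by G1 (4). -/
def S_G9 : Prop := S_sep0

/-- [G10] `S_pers` from the lemmas: piece `S_B1 → S_B4 → S_G1 → S_G3 → S_pers`.
PROOF. Case 1: `f ∈ K`, `f.card = 3`, `z v > 0` on `f`; then `z` is supported in `f` (the coordinates are `≥ 0`, sum 1... `z` is supported in some facet `g`, and `f ⊆ g`, cards 3, so `f = g`). In this case
`D` is not `One` (facet with 3 elements; if `One` then `K = {{a,b}}`). `f = {a,b,w}`, `ar > 0` (G3). `zf i = bc a b w (pf i) (qf i)`: G1 (5),(3): `zf → bc p (pos p z) = z`; coordinates eventually positive;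
eventually `ar (pf i ..) ≠ 0`, so `pos (pf i) (zf i) = qf i`. Case 2: `D' = ⟨a,b,node w l r,node x l' r'⟩` (`D'.P, D'.R ≠ nil`), `D'.SPos p`, same `K` (B1), `z a, z b > 0`, `z a + z b = 1`, other coordinates 0. Put
`zf i = bc a b w (pf i) (qf i)` if `0 ≤ ar (pf i a) (pf i b) (qf i)` and `bc b a x (pf i) (qf i)` otherwise. Both tend to `z` (G1 (3),(5); `Tendsto.if'` or combine with `Filter` ultra-simple epsilon argument), in the first
case the `w`-coordinate is `ar (pf a) (pf b) (qf)/ar(..) ≥ 0`, the others eventually positive; in the second case the `x`-coordinate is `ar (pf b) (pf a) (qf)/ar(pf b, pf a, pf x) ≥ 0`. -/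
def S_G10 : Prop := S_pers

/-- [G11] Positivity is open.
PROOF. Induction on `PT`: finitely many strict inequalities between continuous functions (`ar (p' a) (p' b) (p' w)` is continuous in `p'`). `SPos → WPos`: induction, `le_of_lt`. -/
def S_G11 : Prop :=
  ∀ (N : ℕ) (D : Dsc N) (p : Fin N → E), D.SPos p → D.WPos p ∧ ∀ᶠ p' in 𝓝 p, D.SPos p' ∧ D.WPos p'

/-- [G12] Persistence of straightness: piece `S_A7 → S_A1 → S_B4 → S_B5 → S_SL → S_G11 → S_G12`.
PROOF. Eventually `D.SPos (pf i)` (G11). Apply `S_SL` for `pf i`, `sf i`, `tf i`: if the conclusion fails there is `w ∈ vl` with `vx w ≠ sf i`, `vx w ≠ tf i` and `d_i(s,w) + d_i(w,t) ≤ d_i(s,t)`. For each of the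
finitely many `w ∈ vl` this is eventually impossible: if `vx w = s` then eventually `sf i = vx w`; if `vx w = t` same; otherwise the strict inequality persists, all three `dK` being continuous (A7; `In K (vx w)`
by B4, A1). `Filter.eventually_all_finset`/list induction. -/
def S_G12 : Prop :=
  ∀ (N : ℕ) (D : Dsc N) (p : Fin N → E) (ι : Type) (l : Filter ι) (pf : ι → Fin N → E)
    (sf tf : ι → Pt N) (s t : Pt N), D.ok → D.SPos p → Tendsto pf l (𝓝 p) → Tendsto sf l (𝓝 s) →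
    Tendsto tf l (𝓝 t) → In D.K s → In D.K t → (∀ᶠ i in l, In D.K (sf i)) →
    (∀ᶠ i in l, In D.K (tf i)) → (∀ v, s = vx v → ∀ᶠ i in l, sf i = vx v) →
    (∀ v, t = vx v → ∀ᶠ i in l, tf i = vx v) →
    (∀ w ∈ D.vl, vx w ≠ s → vx w ≠ t →
      dK D.K (ce p) s t < dK D.K (ce p) s (vx w) + dK D.K (ce p) (vx w) t) →
    ∀ᶠ i in l, dK D.K (ce (pf i)) (sf i) (tf i) = dist (pos (pf i) (sf i)) (pos (pf i) (tf i))

/-- [G13] Moving the centre edge of a network.
PROOF. (1)-(4) for one `Mv` step: cases, `List.Perm` (`simp`/`perm` lemmas or `Multiset`), `ring`; symmetry of `Eqv`: `lf` is undone by `sw, rt, sw`: `(l, node z r B) → (node z r B, l) → (B, node z r l)`.. use: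
`(node z l r, B) -lf-> (l, node z r B) -sw-> (node z r B, l) -rt-> (B, node z r l)`: the order of the branches changes, so undo as follows: from `(l, node z r B)`: `sw`: `(node z r B, l)`; `rt`: `(B, node z r l)`;
`sw`: `(node z r l, B)`; and to exchange the two branches: `lf`: `(r, node z l B)`, `sw`, `rt`: `(node z l B, r) → (B, node z l r)`, `sw`: `(node z l r, B)`. So every step is undone by finitely many steps (similar for `rt`).
(5) `leaves.length = nodes.length + 2`: for a net `leaves.length = nodes.length + 1`. (6),(7): induction on the net `A` for all `B`: if `z ∈ A.nodes` then `(A,B) ~ (node z l r, B')`: `A = node z' l' r'`: `z = z'`, or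
`z ∈ l'.nodes` (move `lf`), or `z ∈ r'.nodes` (move `rt`). -/
def S_G13 : Prop :=
  ∀ (N : ℕ) (T T' : Net N × Net N),
    (Net.Eqv T T' → Net.Eqv T' T ∧
      (T.1.leaves ++ T.2.leaves).Perm (T'.1.leaves ++ T'.2.leaves) ∧
      (T.1.nodes ++ T.2.nodes).Perm (T'.1.nodes ++ T'.2.nodes) ∧
      ∀ d : Pt N → Pt N → ℝ, (∀ x y, d x y = d y x) → Net.tlen d T = Net.tlen d T') ∧
    (T.1.leaves ++ T.2.leaves).length = (T.1.nodes ++ T.2.nodes).length + 2 ∧
    (∀ z ∈ T.1.nodes ++ T.2.nodes, ∃ l r B, Net.Eqv T (Net.node z l r, B)) ∧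
    (∀ v ∈ T.1.leaves ++ T.2.leaves, ∃ B, Net.Eqv T (Net.leaf v, B))

/-- realisation of symbolic ends -/
noncomputable def rp {N k : ℕ} (z : Fin k → Pt N) : Fin N ⊕ Fin k → Pt N := Sum.elim vx z

/-- [G14] Symbolic networks.
PROOF. (1),(2): cases / induction. (3) For a net `A` in `SNet` and any `B : Net`: every `e ∈ A.edges` is the centre edge of some `T' ~ (A.real z, B)` (induction on `A`: for `node i l r`: the edge `(inr i, l.top)`:
move `lf` and `sw`: tops `(z i, l.top)`; `(inr i, r.top)`: `rt`, `sw`; edges of `l`: `lf`, induction with `B := node (z i) r B`). Same for `T.2` after `sw`. (4) induction: `len d (A.real z) = (A.edges.map _).sum`. (5),(6) induction. -/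
def S_G14 : Prop :=
  ∀ (N k : ℕ) (z : Fin k → Pt N),
    (∀ A : SNet N k, (A.real z).top = rp z A.top) ∧
    (∀ A : SNet N k, (A.real z).leaves = A.leaves ∧ (A.real z).nodes = A.names.map z) ∧
    (∀ T : SNet N k × SNet N k, ∀ e ∈ (T.1.top, T.2.top) :: (T.1.edges ++ T.2.edges),
      ∃ T', Net.Eqv (T.1.real z, T.2.real z) T' ∧ T'.1.top = rp z e.1 ∧ T'.2.top = rp z e.2) ∧
    (∀ (T : SNet N k × SNet N k) (d : Pt N → Pt N → ℝ), Net.tlen d (T.1.real z, T.2.real z) =
      (((T.1.top, T.2.top) :: (T.1.edges ++ T.2.edges)).map fun e => d (rp z e.1) (rp z e.2)).sum) ∧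
    (∀ (T : SNet N k × SNet N k), ∀ e ∈ (T.1.top, T.2.top) :: (T.1.edges ++ T.2.edges),
      (∀ i, e.1 = Sum.inr i ∨ e.2 = Sum.inr i → i ∈ T.1.names ++ T.2.names) ∧
      (∀ v, e.1 = Sum.inl v ∨ e.2 = Sum.inl v → v ∈ T.1.leaves ++ T.2.leaves))

/-- [G15] The network of an optimal configuration is shortest in its disc.
PROOF. `S = S1 ++ q :: S2` (`List.append_of_mem`), `q' = ⟨q.D, q.p, q.lab, T'⟩`, `S' = S1 ++ q' :: S2`. `InD Cl P S'`: `ok` for `q'` (leaves: permutation); `Hst S' = Hst S` (same leaf classes, permutation), `conn`;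
`cnt`: same number of leaves; `mst`: `Ch S' = Ch S` since `Ch` only uses `D, p, lab` (`q'.d = q.d` by `rfl`). `Opt.o1`: `Lc S ≤ Lc S'`; `Lc` is a sum over the list: `q.L ≤ q'.L`. -/
def S_G15 : Prop :=
  ∀ (N : ℕ) (Cl : Finset ℕ) (P R1 : ℝ) (S : Cfg N), Opt Cl P R1 S → ∀ q ∈ S, ∀ T' : Net N × Net N,
    (T'.1.leaves ++ T'.2.leaves).Perm q.lv → (∀ z ∈ T'.1.nodes ++ T'.2.nodes, In q.D.K z) →
    Net.tlen q.d q.T ≤ Net.tlen q.d T'

/-- [G16] Straight chains start inwards at a boundary edge: piece `S_A1 → S_A4 → S_A6 → S_B1 → S_B3 → S_B5 → S_G1 → S_G2 → S_G3 → S_G16`.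
PROOF. We may replace `D` by `⟨a,b,node w l r,nil⟩` (B1: `ok`, `SPos`, `K`). If `y = z` the right side is 0. Take a path with the minimal number `k` of steps and length `dK z y = dist` (A6), sequence `u` (A4), `k ≥ 1`. The first step is
in a facet `f` containing `a` and `b` (`z a, z b > 0`), so `f = {a,b,w}` by B3. `pos u1 ≠ pos z`, otherwise `u1 = z` (G1 (4)) and the sub-path from `u 1` (G2 (3)) has fewer steps and the same length. By the triangle inequality
`dist z u1 + dist u1 y ≤ length = dist z y`, so `pos u1 - pos z = t (pos y - pos z)` with `t > 0` (`Wbtw`), and `t * cr (p b - p a) (pos y - pos z) = cr (p b - p a) (pos u1 - pos z) = ar (p a) (p b) (pos u1) - ar (p a) (p b) (pos z)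
= u1 w * ar (p a) (p b) (p w) - 0 ≥ 0` (G1 (1); `z w = 0`). -/
def S_G16 : Prop :=
  ∀ (N : ℕ) (D : Dsc N) (p : Fin N → E) (a b w : Fin N) (l r : PT N) (z y : Pt N), D.ok → D.SPos p →
    Dsc.Eqv D ⟨a, b, PT.node w l r, PT.nil⟩ → In D.K z → 0 < z a → 0 < z b → z a + z b = 1 →
    In D.K y → dK D.K (ce p) z y = dist (pos p z) (pos p y) → 0 ≤ cr (p b - p a) (pos p y - pos p z)

/-- [G17] Moving a point of the disc in a direction which is a sum of directions of straight chains: piece `S_A1 → S_B1 → S_B4 → S_G1 → S_G3 → S_G4 → S_G16 → S_G17`.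
PROOF. G4. Case 1: `z` positive on a facet `f = {a,b,w}` with `ar > 0` (G3): `zf ε = bc a b w p (pos p z + ε v)`: tends to `z` (G1 (3),(5)), coordinates eventually positive, `z` and `zf ε` in the common facet `f`.
Case 2: `D ~ ⟨a,b,node w l r,R⟩`, `z a, z b > 0`, `z a + z b = 1`. If `0 ≤ cr (p b - p a) v`: `zf ε = bc a b w p (pos p z + ε v)`: `w`-coordinate `= (ar (p a) (p b) (pos z) + ε cr (p b - p a) v)/ar = ε cr/ar ≥ 0` (G1 (7)), the others
eventually positive. Otherwise `cr < 0`. If `R = node x l' r'`: the same with the triangle `b a x` (`D ~ ⟨b,a,node x l' r',_⟩` by `sw`), `cr (p a - p b) v = - cr (p b - p a) v > 0`. If `R = nil`: every term of `v` has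
`cr (p b - p a) (uni (pos y - pos z)) = ‖..‖⁻¹ * cr (p b - p a) (pos y - pos z) ≥ 0` by G16, so `cr (p b - p a) v ≥ 0`, contradiction. -/
def S_G17 : Prop :=
  ∀ (N : ℕ) (D : Dsc N) (p : Fin N → E) (z : Pt N) (ys : List (Pt N)), D.ok → D.SPos p → ¬ D.One →
    In D.K z → (∀ v, z ≠ vx v) →
    (∀ y ∈ ys, In D.K y ∧ dK D.K (ce p) z y = dist (pos p z) (pos p y)) →
    ∃ zf : ℝ → Pt N, Tendsto zf (𝓝[>] 0) (𝓝 z) ∧ ∀ᶠ ε in 𝓝[>] (0 : ℝ), Stp D.K z (zf ε) ∧
      pos p (zf ε) = pos p z + ε • (ys.map fun y => uni (pos p y - pos p z)).sum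

/-- [G18] Unit vectors in the plane.
PROOF. (1) otherwise `2 + 2 <e_i,e_j> = ‖e_i+e_j‖² ≤ 1` for all six pairs, so `‖e1+e2+e3+e4‖² = 4 + 2 ∑ <e_i,e_j> ≤ 4 - 6 < 0`. (2) if the sum is 0 then the numbers `cr u e_i ≥ 0` sum to 0, so all are 0, so
`e_i = c_i u` with `c_i = ± 1/‖u‖`, and `c_1 + c_2 + c_3 = 0` is impossible. -/
def S_G18 : Prop :=
  (∀ e1 e2 e3 e4 : E, ‖e1‖ = 1 → ‖e2‖ = 1 → ‖e3‖ = 1 → ‖e4‖ = 1 →
    1 < ‖e1 + e2‖ ∨ 1 < ‖e1 + e3‖ ∨ 1 < ‖e1 + e4‖ ∨ 1 < ‖e2 + e3‖ ∨ 1 < ‖e2 + e4‖ ∨ 1 < ‖e3 + e4‖) ∧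
  (∀ u e1 e2 e3 : E, u ≠ 0 → ‖e1‖ = 1 → ‖e2‖ = 1 → ‖e3‖ = 1 → 0 ≤ cr u e1 → 0 ≤ cr u e2 → 0 ≤ cr u e3 →
    e1 + e2 + e3 ≠ 0) ∧
  (∀ u : E, u ≠ 0 → ‖uni u‖ = 1)

/-- [G19] First variation of a sum of distances.
PROOF. `g y ε = dist (z + ε v) y` has derivative `- <v, uni (y - z)>` at `ε = 0` (`y ≠ z`; e.g. `HasDerivAt` of the norm via `HasDerivAt.sqrt` of `‖z - y + ε v‖² = ‖z-y‖² + 2 ε <z-y,v> + ε²‖v‖²`). So
`G ε = c (ε ‖v‖) + ∑ g y ε - ∑ g y 0` has derivative `c ‖v‖ - <v, ∑ uni (y - z)> < 0` at 0 and `G 0 = 0`; hence `G ε < 0` for small `ε > 0`. -/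
def S_G19 : Prop :=
  ∀ (z v : E) (ys : List E) (c : ℝ), (∀ y ∈ ys, y ≠ z) →
    c * ‖v‖ < inner ℝ v (ys.map fun y => uni (y - z)).sum →
    ∀ᶠ ε in 𝓝[>] (0 : ℝ), c * (ε * ‖v‖) + (ys.map fun y => dist (z + ε • v) y).sum <
      (ys.map fun y => dist z y).sum

/-- [G20] Shortening: piece `S_A1 → S_A2 → S_A3 → S_B4 → S_B5 → S_SL → S_sep0 → S_G12 → S_G17 → S_G19 → S_G20`.
PROOF. Put `e y = uni (pos y - pos z)`, `v = ∑ e y`. By `S_SL` and the strict inequalities `dK z y = dist (pos z) (pos y)`; it is `> 0` by `S_sep0`, so `pos y ≠ pos z`. G17: `zf`. For each `y ∈ ys`, G12 with constant `pf = p`, `sf = zf`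
(`z` is not a vertex), `tf = y` constant: eventually `dK (zf ε) y = dist (pos z + ε v) (pos y)`. `dK z (zf ε) ≤ ce p z (zf ε) = ε ‖v‖` (A2 (5)). G19 with `c ‖v‖ < ‖v‖² = <v,v>`: for small `ε > 0`
`c dK z (zf ε) + ∑ dK (zf ε) y ≤ c ε ‖v‖ + ∑ dist (pos z + ε v) (pos y) < ∑ dist (pos z) (pos y) = ∑ dK z y`. Take such an `ε` (`Eventually.exists`, `𝓝[>] 0` is `NeBot`), `z' = zf ε`. -/
def S_G20 : Prop :=
  ∀ (N : ℕ) (D : Dsc N) (p : Fin N → E) (z : Pt N) (ys : List (Pt N)) (c : ℝ), D.ok → D.SPos p →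
    ¬ D.One → In D.K z → (∀ v, z ≠ vx v) → 0 ≤ c →
    (∀ y ∈ ys, In D.K y ∧ y ≠ z ∧ ∀ w ∈ D.vl, vx w ≠ z → vx w ≠ y →
      dK D.K (ce p) z y < dK D.K (ce p) z (vx w) + dK D.K (ce p) (vx w) y) →
    c * ‖(ys.map fun y => uni (pos p y - pos p z)).sum‖ <
      ‖(ys.map fun y => uni (pos p y - pos p z)).sum‖ ^ 2 →
    ∃ z', In D.K z' ∧ c * dK D.K (ce p) z z' + (ys.map fun y => dK D.K (ce p) z' y).sum <
      (ys.map fun y => dK D.K (ce p) z y).sum

open Classical in
/-- the branches of a net hanging at the cluster of nodes at `z` containing the top -/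
noncomputable def br {N : ℕ} (z : Pt N) : Net N → List (Net N)
  | Net.leaf v => [Net.leaf v]
  | Net.node z' l r => if z' = z then br z l ++ br z r else [Net.node z' l r]

/-- a comb of nodes at `z` carrying the nets `B, Bs` -/
def comb {N : ℕ} (z : Pt N) : Net N → List (Net N) → Net N
  | B, [] => B
  | B, B' :: Bs => Net.node z B (comb z B' Bs)

/-- length of a net hanging at `z` -/
noncomputable def hl {N : ℕ} (d : Pt N → Pt N → ℝ) (z : Pt N) (A : Net N) : ℝ := d z A.top + A.len d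

/-- [G21] Branches and combs.
PROOF. All by induction on the net resp. the list, unfolding `br`, `comb`, `len`; (1)-(5): `br z (node z l r) = br z l ++ br z r` and `hl d z (node z l r) = d z z + (d z l.top + d z r.top + l.len + r.len) = hl l + hl r` as
`d z z = 0`. (5) every `B ∈ br z A` is a leaf (`vx v ≠ z`) or a node at a point `≠ z`. (6): `A = node z l r`, `C.top = z`: `(A,C) ~ (l, node z r C)` (move `lf`), the second net has top `z`; induction; same for `r` with `rt`;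
otherwise `br z A = [A]`. (7) `comb`: `hl (node z B X) = 0 + hl B + hl X`. (8),(9) induction. -/
def S_G21 : Prop :=
  ∀ (N : ℕ) (z : Pt N),
    (∀ A : Net N, ((br z A).map Net.leaves).flatten = A.leaves) ∧
    (∀ A : Net N, ∀ B ∈ br z A, ∀ x ∈ B.nodes, x ∈ A.nodes) ∧
    (∀ A : Net N, br z A ≠ [] ∧ ∀ l r, A = Net.node z l r → br z A = br z l ++ br z r) ∧
    (∀ (A : Net N) (d : Pt N → Pt N → ℝ), d z z = 0 → hl d z A = ((br z A).map (hl d z)).sum) ∧
    ((∀ v, z ≠ vx v) → ∀ A : Net N, ∀ B ∈ br z A, B.top ≠ z) ∧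
    (∀ (T : Net N × Net N) (A C : Net N), Net.Eqv T (A, C) → C.top = z → ∀ B ∈ br z A,
      ∃ C', C'.top = z ∧ Net.Eqv T (B, C')) ∧
    (∀ (B : Net N) (Bs : List (Net N)) (d : Pt N → Pt N → ℝ), d z z = 0 →
      hl d z (comb z B Bs) = ((B :: Bs).map (hl d z)).sum) ∧
    (∀ (B : Net N) (Bs : List (Net N)), (comb z B Bs).leaves = ((B :: Bs).map Net.leaves).flatten ∧
      (∀ x ∈ (comb z B Bs).nodes, x = z ∨ ∃ A ∈ B :: Bs, x ∈ A.nodes)) ∧
    (∀ (B B' : Net N) (Bs : List (Net N)), (comb z B (B' :: Bs)).top = z)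

/-- [G22] Small facts about a piece: piece `S_A1 → S_B4 → S_G13 → S_G22`.
PROOF. (1) G13 (1): leaves and nodes of `T'` are leaves and nodes of `q.T`; a top is a node (`ok.nods`) or `vx v` with `v ∈ vl` (`ok.lvs`, B4, A1 (5)). (2) if `D.One` then `vl = [a,b]`, the leaves are distinct elements of `{a,b}`
(`cls`: `List.Nodup.of_map`), so at most 2 leaves, but their number is `nodes.length + 2 ≥ 3`. (3) the top of `T'.1` at a point that is no vertex: `T'.1` is a node. -/
def S_G22 : Prop :=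
  ∀ (N : ℕ) (Cl : Finset ℕ) (P : ℝ) (q : Piece N), q.ok Cl P → Surg q →
    (∀ T', Net.Eqv q.T T' → In q.D.K T'.1.top ∧ In q.D.K T'.2.top) ∧
    (q.nd ≠ [] → ¬ q.D.One) ∧
    (∀ T', Net.Eqv q.T T' → T'.1.top = T'.2.top → ∃ z l r l' r', T'.1 = Net.node z l r ∧
      T'.2 = Net.node z l' r' ∧ z ∈ q.nd)

/-- [G23] No edge of the network has length 0: piece `S_A1 → S_A2 → S_B5 → S_sep0 → S_G13 → S_G15 → S_G18 → S_G20 → S_G21 → S_G22 → S_G23`.
PROOF. Suppose `T' ~ q.T`, `T'.1.top = T'.2.top`; G22 (3): `T' = (node z l r, node z l' r')`, `z ∈ q.nd`, so `z` is no vertex (`nv`), `¬ One`. Let `Bs = br z T'.1 ++ br z T'.2 = (br z l ++ br z r) ++ (br z l' ++ br z r')`: at least 4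
elements `B1..B4` (first elements of the four lists), all tops `≠ z` (G21 (5)); write `Bs.Perm (B1 :: B2 :: B3 :: B4 :: rest)`. For each `B ∈ Bs`: G21 (6) gives `q.T ~ (B, C')` with `C'.top = z` (for the second half first `sw`), so `In K B.top` and
by `Surg.split` and symmetry of `d` the strict inequalities needed in G20. `e_i = uni (pos B_i.top - pos z)` are unit vectors (`S_sep0` and straightness: `S_SL` is not needed: if `pos B.top = pos z` use G20-type argument... simply: `dK z B.top > 0` by `S_sep0` and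
`dK z B.top = dist (pos z) (pos B.top)` by `S_SL` and the strict inequality; add `S_SL` as hypothesis). By G18 (1) some pair, after permuting say `B1, B2`, has `‖e_1 + e_2‖ > 1`. G20 with `ys = [B1.top, B2.top]`, `c = 1`: `z'` with
`d z z' + d z' B1.top + d z' B2.top < d z B1.top + d z B2.top`. Let `T'' = (node z' B1 B2, comb z B3 (B4 :: rest))`. Its leaves are a permutation of those of `T'` (G21 (1),(8)), so of `q.lv`; its nodes are `z'`, `z` or nodes of `T'`, all in `K`. `tlen T'' = d z' z +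
(d z' B1.top + d z' B2.top + B1.len + B2.len) + hl z (comb ..)` (top of the comb is `z`, `d z z = 0`) `< ∑_(B ∈ Bs) hl z B = hl z T'.1 + hl z T'.2 = tlen T' = tlen q.T`. Contradiction to G15. -/
def S_G23 : Prop :=
  ∀ (N : ℕ) (Cl : Finset ℕ) (P R1 : ℝ) (S : Cfg N), Ctx Cl P R1 S → ∀ q ∈ S, Surg q →
    ∀ T', Net.Eqv q.T T' → T'.1.top ≠ T'.2.top

/-- [G24] Nodes are inner points: piece `S_A1 → S_A2 → S_B5 → S_SL → S_sep0 → S_G4 → S_G13 → S_G15 → S_G16 → S_G18 → S_G20 → S_G22 → S_G23 → S_G24`.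
PROOF. Let `z ∈ q.nd`: no vertex (`nv`), `¬ One` (G22). G4: if `z` is positive on a facet, or on `{a,b}` with `D ~ ⟨a,b,node w l r,R⟩` and `R ≠ nil`, then `Inn`. Otherwise `R = nil`. G13: `q.T ~ (node z l1 r1, B)`. By G23 and the moves `lf`, `rt`: the three points
`y1 = B.top`, `y2 = l1.top`, `y3 = r1.top` are `≠ z`, they are in `K` (G22 (1)) and satisfy the strict inequalities (`Surg.split`, symmetry of `d`). So (`S_SL`, `S_sep0`) `dK z y_i = dist (pos z) (pos y_i) > 0`, and G16 gives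
`cr (p b - p a) (uni (pos y_i - pos z)) ≥ 0`; `p a ≠ p b`. By G18 (2) `v = ∑ uni (pos y_i - pos z) ≠ 0`. G20 with `c = 0`: `z'` with `∑ d z' y_i < ∑ d z y_i`; `T'' = (node z' l1 r1, B)` is shorter than `q.T` (`tlen` is invariant, G13):
contradiction to G15. -/
def S_G24 : Prop :=
  ∀ (N : ℕ) (Cl : Finset ℕ) (P R1 : ℝ) (S : Cfg N), Ctx Cl P R1 S → ∀ q ∈ S, Surg q →
    ∀ z ∈ q.nd, Inn q.D z

/-- [G25] Assembly of section 4: piece `S_SL → S_G22 → S_G23 → S_G24 → S_surg → S_geo`.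
PROOF. `Surg q` from `S_surg`. `str`: `S_SL` (with `ok`, `spos`, tops in `K` by G22 (1)), the first alternative contradicts `Surg.split`. `pos`: G23, `inn`: G24. -/
def S_G25 : Prop := S_geo

end Pool.Agent.Lib.MP_9f84a9_co
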