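import Pool.Agent.Lib.MP_9f84a9_co.G.StmG

/-!
# MP_9f84a9_co, piece G10: persistence of inner points
-/

set_option autoImplicit false

namespace Pool.Agent.Lib.MP_9f84a9_co

open Finset Filter Topology

private theorem G10_ar {ι : Type} {l : Filter ι} {f g h : ι → E} {u v w : E}
    (hf : Tendsto f l (𝓝 u)) (hg : Tendsto g l (𝓝 v)) (hh : Tendsto h l (𝓝 w)) :
    Tendsto (fun i => ar (f i) (g i) (h i)) l (𝓝 (ar u v w)) := by
  have hc : ∀ j : Fin 2, Continuous (fun x : E => x j) := fun j => by fun_prop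
  have hf' := fun j => ((hc j).tendsto u).comp hf
  have hg' := fun j => ((hc j).tendsto v).comp hg
  have hh' := fun j => ((hc j).tendsto w).comp hh
  unfold ar
  exact (((hg' 0).sub (hf' 0)).mul ((hh' 1).sub (hf' 1))).sub
    (((hg' 1).sub (hf' 1)).mul ((hh' 0).sub (hf' 0)))

private theorem G10_core (hG1 : S_G1) {N : ℕ} {a b w : Fin N} (hab : a ≠ b) (haw : a ≠ w)
    (hbw : b ≠ w) {p : Fin N → E} {z : Pt N} (hs : ∑ v, z v = 1) (hsup : Sup z {a, b, w})
    (har : 0 < ar (p a) (p b) (p w)) {ι : Type} {l : Filter ι} {pf : ι → Fin N → E} {qf : ι → E}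
    (hp : Tendsto pf l (𝓝 p)) (hq : Tendsto qf l (𝓝 (pos p z))) :
    Tendsto (fun i => bc a b w (pf i) (qf i)) l (𝓝 z) ∧
    ∀ᶠ i in l, 0 < ar (pf i a) (pf i b) (pf i w) ∧ pos (pf i) (bc a b w (pf i) (qf i)) = qf i ∧
      ∑ v, bc a b w (pf i) (qf i) v = 1 ∧ Sup (bc a b w (pf i) (qf i)) {a, b, w} ∧
      bc a b w (pf i) (qf i) w = ar (pf i a) (pf i b) (qf i) / ar (pf i a) (pf i b) (pf i w) := by
  obtain ⟨_, h2, h3, _, h5, _, _⟩ := hG1 N a b w hab haw hbw
  constructor
  · have h := h5 ι l pf qf p (pos p z) har.ne' hp hq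
    rwa [h3 p z har.ne' hs hsup] at h
  · have hpv := fun v => (tendsto_pi_nhds.mp hp) v
    have h := G10_ar (hpv a) (hpv b) (hpv w)
    filter_upwards [h.eventually (lt_mem_nhds har)] with i hi
    obtain ⟨e1, e2, e3, _, _, e6⟩ := h2 (pf i) (qf i) hi.ne'
    exact ⟨hi, e1, e2, e3, e6⟩

private theorem G10_nonneg {N : ℕ} {K : Cx N} {f : Finset (Fin N)} (hf : f ∈ K) {x : Pt N}
    (h1 : ∑ v, x v = 1) (h2 : Sup x f) (h3 : ∀ v ∈ f, 0 ≤ x v) : In K x :=
  ⟨fun v => by
    by_cases hv : v ∈ f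
    · exact h3 v hv
    · exact (h2 v hv).ge, h1, f, hf, h2⟩

private theorem G10_mem {N : ℕ} (a b w x : Fin N) (l r l' r' : PT N) :
    ({a, b, w} : Finset (Fin N)) ∈ (Dsc.mk a b (PT.node w l r) (PT.node x l' r')).K ∧
    ({b, a, x} : Finset (Fin N)) ∈ (Dsc.mk a b (PT.node w l r) (PT.node x l' r')).K := by
  unfold Dsc.K
  rw [if_neg (fun h => by cases h.1)]
  constructor
  · exact Finset.mem_union_left _ (Finset.mem_insert_self _ _)
  · exact Finset.mem_union_right _ (Finset.mem_insert_self _ _)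

theorem p_G10 : S_B1 → S_B4 → S_G1 → S_G3 → S_pers := by
  intro hB1 hB4 hG1 hG3 N D p z hok hsp hin ι l pf qf hp hq
  obtain ⟨hK, hcase⟩ := hin
  obtain ⟨hz0, hz1, g, hg, hgs⟩ := hK
  rcases hcase with ⟨f, hf, hf3, hfpos⟩ | ⟨D', hE, hP, hR, hza, hzb, hzab⟩
  · have hfg : f ⊆ g := by
      intro v hv
      by_contra hvg
      exact (hfpos v hv).ne' (hgs v hvg)
    obtain ⟨_, _, hB43, _⟩ := hB4 N D hok
    have hnOne : ¬ D.One := by
      intro hO
      have hfe : f = {D.a, D.b} := by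
        have := hf
        unfold Dsc.K at this
        rw [if_pos (show D.P = PT.nil ∧ D.R = PT.nil from hO)] at this
        exact Finset.mem_singleton.mp this
      have := Finset.card_le_two (a := D.a) (b := D.b)
      rw [hfe] at hf3
      omega
    have hgf : f = g := by
      apply Finset.eq_of_subset_of_card_le hfg
      rcases hB43 g hg with h | h
      · rw [h, hf3]
      · exact absurd ⟨h.1, h.2.1⟩ hnOne
    obtain ⟨x, hx, y, hy, hxy⟩ := Finset.one_lt_card.mp (show 1 < f.card by omega)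
    obtain ⟨a, b, w, _, _, _, _, hfe, hab, haw, hbw, har, _⟩ :=
      (hG3 N D p hok hsp hnOne).1 f hf x hx y hy hxy
    have hsup : Sup z {a, b, w} := by
      rw [← hfe, hgf]
      exact hgs
    obtain ⟨ht, hev⟩ := G10_core hG1 hab haw hbw hz1 hsup har hp hq
    refine ⟨_, ht, ?_⟩
    have hpos : ∀ᶠ i in l, ∀ v : Fin N, v ∈ f → 0 < bc a b w (pf i) (qf i) v := by
      refine eventually_all.mpr fun v => ?_
      by_cases hv : v ∈ f
      · filter_upwards [((tendsto_pi_nhds.mp ht) v).eventually (lt_mem_nhds (hfpos v hv))]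
          with i hi _ using hi
      · exact Eventually.of_forall fun i h => absurd h hv
    filter_upwards [hev, hpos] with i hi hpi
    refine ⟨G10_nonneg hf hi.2.2.1 ?_ fun v hv => (hpi v hv).le, hi.2.1⟩
    rw [hfe]
    exact hi.2.2.2.1
  · obtain ⟨_, hok', hKK, _, hB⟩ := hB1 N D D' hE
    have hok2 := hok'.mp hok
    have hsp2 := ((hB p).2.1).mp hsp
    obtain ⟨a, b, P, R⟩ := D'
    simp only at hP hR hza hzb hzab
    cases P with
    | nil => exact absurd rfl hP
    | node w lP rP =>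
    cases R with
    | nil => exact absurd rfl hR
    | node x lR rR =>
    have harw : 0 < ar (p a) (p b) (p w) := hsp2.1.1
    have harx : 0 < ar (p b) (p a) (p x) := hsp2.2.1
    have hnd : (a :: b :: ((w :: (lP.vs ++ rP.vs)) ++ (x :: (lR.vs ++ rR.vs)))).Nodup := hok2
    simp only [List.cons_append, List.nodup_cons, List.mem_cons, List.mem_append, not_or] at hnd
    have hab : a ≠ b := hnd.1.1
    have haw : a ≠ w := hnd.1.2.1
    have hbw : b ≠ w := hnd.2.1.1
    have hax : a ≠ x := hnd.1.2.2.2.1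
    have hbx : b ≠ x := hnd.2.1.2.2.1
    have hz2 : ∀ v, v ≠ a → v ≠ b → z v = 0 := by
      intro v hva hvb
      have h1 : ∑ u ∈ ({a, b, v} : Finset (Fin N)), z u ≤ ∑ u, z u :=
        Finset.sum_le_univ_sum_of_nonneg hz0
      rw [Finset.sum_insert (by simp [hab, hva.symm]), Finset.sum_insert (by simp [hvb.symm]),
        Finset.sum_singleton, hz1] at h1
      have := hz0 v
      linarith
    have hsw : Sup z {a, b, w} := by
      intro v hv
      simp only [Finset.mem_insert, Finset.mem_singleton, not_or] at hv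
      exact hz2 v hv.1 hv.2.1
    have hsx : Sup z {b, a, x} := by
      intro v hv
      simp only [Finset.mem_insert, Finset.mem_singleton, not_or] at hv
      exact hz2 v hv.2.1 hv.1
    obtain ⟨ht1, hev1⟩ := G10_core hG1 hab haw hbw hz1 hsw harw hp hq
    obtain ⟨ht2, hev2⟩ := G10_core hG1 hab.symm hbx hax hz1 hsx harx hp hq
    classical
    refine ⟨fun i => if 0 ≤ ar (pf i a) (pf i b) (qf i) then bc a b w (pf i) (qf i)
      else bc b a x (pf i) (qf i), ht1.if' ht2, ?_⟩
    obtain ⟨hm1, hm2⟩ := G10_mem a b w x lP rP lR rR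
    rw [← hKK] at hm1 hm2
    have c1 := ((tendsto_pi_nhds.mp ht1) a).eventually (lt_mem_nhds hza)
    have c2 := ((tendsto_pi_nhds.mp ht1) b).eventually (lt_mem_nhds hzb)
    have c3 := ((tendsto_pi_nhds.mp ht2) a).eventually (lt_mem_nhds hza)
    have c4 := ((tendsto_pi_nhds.mp ht2) b).eventually (lt_mem_nhds hzb)
    filter_upwards [hev1, hev2, c1, c2, c3, c4] with i h1 h2 d1 d2 d3 d4
    split_ifs with hi
    · refine ⟨G10_nonneg hm1 h1.2.2.1 h1.2.2.2.1 fun v hv => ?_, h1.2.1⟩
      simp only [Finset.mem_insert, Finset.mem_singleton] at hv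
      rcases hv with rfl | rfl | rfl
      · exact d1.le
      · exact d2.le
      · rw [h1.2.2.2.2]
        exact div_nonneg hi h1.1.le
    · refine ⟨G10_nonneg hm2 h2.2.2.1 h2.2.2.2.1 fun v hv => ?_, h2.2.1⟩
      simp only [Finset.mem_insert, Finset.mem_singleton] at hv
      rcases hv with rfl | rfl | rfl
      · exact d4.le
      · exact d3.le
      · rw [h2.2.2.2.2]
        refine div_nonneg ?_ h2.1.le
        have e : ar (pf i b) (pf i a) (qf i) = - ar (pf i a) (pf i b) (qf i) := by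
          unfold ar; ring
        rw [e]
        linarith [not_le.mp hi]

end Pool.Agent.Lib.MP_9f84a9_co
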