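import Pool.Agent.Lib.MP_9f84a9_co.G.StmG

/-! Piece G20. -/

set_option autoImplicit false

namespace Pool.Agent.Lib.MP_9f84a9_co

open Finset Filter Topology

theorem p_G20 : S_A1 → S_A2 → S_A3 → S_B4 → S_B5 → S_SL → S_sep0 → S_G12 → S_G17 → S_G19 → S_G20 := by
  intro hA1 hA2 _ _ hB5 hSL hsep hG12 hG17 hG19
  intro N D p z ys c hok hsp hone hz hzv hc hys hlt
  have hCn : Cn D.K := hB5 N D hok
  have hcost : IsCost (ce p) := (hA1 N).1 p
  obtain ⟨_, dself, dsymm, dtri, dstp⟩ := hA2 N D.K (ce p) hcost hCn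
  have hzero : ∀ x y, In D.K x → In D.K y → dK D.K (ce p) x y = 0 → x = y := by
    rcases hsep N D p hok hsp with h | h
    · exact h
    · exact absurd h hone
  -- straightness
  have hst : ∀ y ∈ ys, dK D.K (ce p) z y = dist (pos p z) (pos p y) := by
    intro y hy
    obtain ⟨h1, h2, h3⟩ := hys y hy
    rcases hSL N D p hok hsp z y hz h1 with ⟨v, hv, hvz, hvy, hle⟩ | h
    · exact absurd (h3 v hv hvz hvy) (not_lt.2 hle)
    · exact h
  have hne : ∀ y ∈ ys, pos p y ≠ pos p z := by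
    intro y hy he
    obtain ⟨h1, h2, _⟩ := hys y hy
    have h4 := hst y hy
    rw [he, dist_self] at h4
    exact h2 (hzero z y hz h1 h4).symm
  obtain ⟨v, hv⟩ : ∃ v : E, v = (ys.map fun y => uni (pos p y - pos p z)).sum := ⟨_, rfl⟩
  rw [← hv] at hlt
  obtain ⟨zf, hzf, hev⟩ := hG17 N D p z ys hok hsp hone hz hzv
    (fun y hy => ⟨(hys y hy).1, hst y hy⟩)
  rw [← hv] at hev
  have hall : ∀ᶠ ε in 𝓝[>] (0 : ℝ), ∀ y ∈ {y | y ∈ ys},
      dK D.K (ce p) (zf ε) y = dist (pos p (zf ε)) (pos p y) := by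
    rw [Filter.eventually_all_finite (List.finite_toSet ys)]
    intro y hy
    obtain ⟨h1, h2, h3⟩ := hys y hy
    exact hG12 N D p ℝ (𝓝[>] (0 : ℝ)) (fun _ => p) zf (fun _ => y) z y hok hsp tendsto_const_nhds
      hzf tendsto_const_nhds hz h1 (hev.mono fun ε h => h.1.2.1)
      (Eventually.of_forall fun _ => h1) (fun w hw => absurd hw (hzv w))
      (fun w hw => Eventually.of_forall fun _ => hw) h3
  have h19 := hG19 (pos p z) v (ys.map (pos p)) c
    (by
      intro y hy
      obtain ⟨x, hx, rfl⟩ := List.mem_map.1 hy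
      exact hne x hx)
    (by
      rw [List.map_map]
      have : (ys.map ((fun y => uni (y - pos p z)) ∘ pos p)).sum = v := by rw [hv]; rfl
      rw [this, real_inner_self_eq_norm_sq]
      exact hlt)
  simp only [List.map_map] at h19
  obtain ⟨ε, ⟨⟨h1, h2⟩, h3⟩, h4, h5⟩ := ((hev.and hall).and (h19.and self_mem_nhdsWithin)).exists
  have hε : (0 : ℝ) < ε := h5
  refine ⟨zf ε, h1.2.1, ?_⟩
  have e1 : dK D.K (ce p) z (zf ε) ≤ ε * ‖v‖ := by
    refine (dstp z (zf ε) h1).trans (le_of_eq ?_)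
    rw [ce, h2, dist_self_add_right, norm_smul, Real.norm_of_nonneg hε.le]
  have e2 : (ys.map fun y => dK D.K (ce p) (zf ε) y) =
      ys.map ((fun y => dist (pos p z + ε • v) y) ∘ pos p) := by
    apply List.map_congr_left
    intro y hy
    rw [h3 y hy, h2]
    rfl
  have e3 : (ys.map fun y => dK D.K (ce p) z y) =
      ys.map ((fun y => dist (pos p z) y) ∘ pos p) := by
    apply List.map_congr_left
    intro y hy
    rw [hst y hy]
    rfl
  rw [e2, e3]
  have e4 := mul_le_mul_of_nonneg_left e1 hc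
  linarith

end Pool.Agent.Lib.MP_9f84a9_co
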